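import Pool.Agent.T9h36.NX.Final

set_option autoImplicit false

/-!
# Block access to long advice is a special case
-/

namespace Pool.Agent.T9h36.NX

open Pool.Agent.NPC Pool.Agent.H660R2.NX Turing Filter

attribute [local irreducible] unpair

/-- The transcript of the queries `Q` to the function `O`. -/
def tr (O : List Bool → List Bool) (Q : List (List Bool)) : Transcript := Q.map fun q => (q, O q)

theorem eq_tr {O : List Bool → List Bool} {S : Transcript} (h : ∀ s ∈ S, s.2 = O s.1) :
    S = tr O (S.map Prod.fst) := by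
  induction S with
  | nil => rfl
  | cons s S ih =>
    unfold tr at ih ⊢
    rw [List.map_cons, List.map_cons, ← ih (fun t ht => h t (List.mem_cons_of_mem _ ht)),
      ← h s List.mem_cons_self]

theorem mem_tr {O : List Bool → List Bool} {Q : List (List Bool)} :
    ∀ s ∈ tr O Q, s.2 = O s.1 := by
  intro s hs
  unfold tr at hs
  rw [List.mem_map] at hs
  obtain ⟨q, _, rfl⟩ := hs
  rfl

theorem qlen_tr (O : List Bool → List Bool) (Q : List (List Bool)) :
    qlen (tr O Q) = (Q.map fun q => q.length + 1).sum := by
  unfold qlen tr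
  rw [List.map_map]
  rfl

theorem sz_transcript_le (S : Transcript) : sz S ≤ 4 * (qlen S + alen S) + 1 := by
  induction S with
  | nil => simp [qlen, alen]
  | cons s S ih =>
    have h1 := sz_listBool_le s.1
    have h2 := sz_listBool_le s.2
    have h3 : sz s = sz s.1 + sz s.2 + 1 := sz_pair s.1 s.2
    have h4 : qlen (s :: S) = s.1.length + 1 + qlen S := by simp [qlen]
    have h5 : alen (s :: S) = s.2.length + alen S := by simp [alen]
    rw [sz_list_cons, h4, h5]
    omega


/-! ### Sets of lists of queries -/

/-- The lists of queries of total length at most `A` (and some more lists). -/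
noncomputable def QF (A : ℕ) : Finset (List (List Bool)) :=
  ((allStr (4 * A + 1)).filterMap (unbits (List (List Bool)))).toFinset

theorem card_QF_le (A : ℕ) : (QF A).card ≤ 2 ^ (4 * A + 2) := by
  unfold QF
  refine (List.toFinset_card_le _).trans ((List.length_filterMap_le _ _).trans ?_)
  have := length_allStr (4 * A + 1)
  have h2 : 4 * A + 1 + 1 = 4 * A + 2 := by omega
  rw [h2] at this
  omega

theorem mem_QF {A : ℕ} {Q : List (List Bool)} (h : (Q.map fun q => q.length + 1).sum ≤ A) :
    Q ∈ QF A := by
  unfold QF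
  rw [List.mem_toFinset, List.mem_filterMap]
  refine ⟨bits Q, ?_, unbits_bits Q⟩
  rw [mem_allStr, bits_length]
  have key : ∀ Q : List (List Bool), sz Q ≤ 4 * (Q.map fun q => q.length + 1).sum + 1 := by
    intro Q
    induction Q with
    | nil => simp
    | cons q Q ih =>
      have := sz_listBool_le q
      rw [sz_list_cons, List.map_cons, List.sum_cons]
      omega
  have := key Q
  omega


theorem sz_le_listBool (s : List Bool) : s.length ≤ sz s := by
  induction s with
  | nil => simp
  | cons a s ih =>
    rw [sz_list_cons, List.length_cons]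
    omega

/-- Preimages under partial polynomial-time functions that do not increase the length. -/
theorem InNTE.preimage {b : ℕ} {B : Set (List Bool)} (h : InNTE b B)
    {g : List Bool → Option (List Bool)} (hg : NPC.Poly g)
    (hlen : ∀ z y, g z = some y → y.length ≤ z.length) :
    InNTE b {z | ∃ y, g z = some y ∧ y ∈ B} := by
  obtain ⟨V, k, hV, hB, hw⟩ := exists_checked h
  refine ⟨fun v => (g (unpair v).1).elim [false] (fun y => V (pairBits y (unpair v).2)), k,
    ?_, fun z => ?_⟩
  · have h1 : NPC.Poly (fun v : List Bool => g (unpair v).1) := hg.comp (by fun_prop)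
    have h2 : NPC.Poly (fun p : List Bool × List Bool => V (pairBits p.2 (unpair p.1).2)) :=
      (poly_of_polyTime hV).comp (poly_pairBits (by fun_prop) (by fun_prop))
    exact polyTime_of_poly' (Poly.optElim h1 (by fun_prop) h2)
  · simp only [unpair_pairBits, Set.mem_ofPred_eq]
    constructor
    · rintro ⟨y, hy, hyB⟩
      obtain ⟨w, hwV⟩ := (hB y).1 hyB
      refine ⟨w, (hw y w hwV).trans (Nat.pow_le_pow_right (by norm_num)
        (Nat.mul_le_mul_left _ (Nat.pow_le_pow_left ?_ _))), ?_⟩
      · have := hlen z y hy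
        omega
      · rw [hy]
        exact hwV
    · rintro ⟨w, _, hwV⟩
      cases hz : g z with
      | none => rw [hz] at hwV; simp at hwV
      | some y =>
        rw [hz] at hwV
        exact ⟨y, rfl, (hB y).2 ⟨w, hwV⟩⟩

theorem inEXP_preimage {B : Set (List Bool)} (h : InEXP B)
    {g : List Bool → Option (List Bool)} (hg : NPC.Poly g)
    (hlen : ∀ z y, g z = some y → y.length ≤ z.length) :
    InEXP {z | ∃ y, g z = some y ∧ y ∈ B} := by
  obtain ⟨V, p, hV, hB⟩ := h
  refine inEXP_of (D := fun z pad => (g z).elim false (fun y => inE V p y pad)) ?_ p fun z => ?_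
  · have h1 : NPC.Poly (fun q : List Bool × List Unit => g q.1) := hg.comp (by fun_prop)
    have h2 : NPC.Poly (fun q : (List Bool × List Unit) × List Bool => inE V p q.2 q.1.2) :=
      poly_inE hV p (by fun_prop) (by fun_prop)
    exact Poly.optElim h1 (by fun_prop) h2
  · simp only [Set.mem_ofPred_eq]
    cases hz : g z with
    | none => simp
    | some y =>
      have h1 : 2 ^ p.eval y.length ≤ (List.replicate (2 ^ p.eval z.length) ()).length := by
        rw [List.length_replicate]
        exact Nat.pow_le_pow_right (by norm_num) (eval_mono'' p (hlen z y hz))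
      simp only [Option.some.injEq, Option.elim_some]
      rw [inE_iff hB h1]
      constructor
      · rintro ⟨y', rfl, hy⟩
        exact hy
      · exact fun hy => ⟨y, rfl, hy⟩

/-- The translation of triples with a coded transcript; the length of the second component is
checked. -/
def trans (C c : ℕ) (z : List Bool) : Option (List Bool) :=
  (unbits (List Bool × List Bool × List Bool) z).elim none fun t =>
    (unbits Transcript t.2.2).elim none fun S =>
      if bits t = z ∧ bits S = t.2.2 ∧ t.2.1.length ≤ C * (t.1.length + 1) ^ c then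
        some (bits (t.1, t.2.1, S)) else none

theorem trans_eq_some {C c : ℕ} {z y : List Bool} (h : trans C c z = some y) :
    ∃ (x u : List Bool) (S : Transcript), z = bits (x, u, bits S) ∧
      u.length ≤ C * (x.length + 1) ^ c ∧ y = bits (x, u, S) := by
  unfold trans at h
  cases h1 : unbits (List Bool × List Bool × List Bool) z with
  | none => rw [h1] at h; simp at h
  | some t =>
    rw [h1] at h
    simp only [Option.elim_some] at h
    cases h2 : unbits Transcript t.2.2 with
    | none => rw [h2] at h; simp at h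
    | some S =>
      rw [h2] at h
      simp only [Option.elim_some] at h
      split_ifs at h with h3
      refine ⟨t.1, t.2.1, S, ?_, h3.2.2, (Option.some.inj h).symm⟩
      rw [h3.2.1]
      exact h3.1.symm

theorem trans_bits {C c : ℕ} {x u : List Bool} {S : Transcript}
    (h : u.length ≤ C * (x.length + 1) ^ c) :
    trans C c (bits (x, u, bits S)) = some (bits (x, u, S)) := by
  unfold trans
  rw [unbits_bits, Option.elim_some]
  simp only
  rw [unbits_bits, Option.elim_some, if_pos (by simp [h])]

theorem trans_bits_none {C c : ℕ} {x u : List Bool} {S : Transcript}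
    (h : ¬ u.length ≤ C * (x.length + 1) ^ c) : trans C c (bits (x, u, bits S)) = none := by
  unfold trans
  rw [unbits_bits, Option.elim_some]
  simp only
  rw [unbits_bits, Option.elim_some, if_neg (by simp [h])]

theorem length_trans_le {C c : ℕ} {z y : List Bool} (h : trans C c z = some y) :
    y.length ≤ z.length := by
  obtain ⟨x, u, S, rfl, _, rfl⟩ := trans_eq_some h
  rw [bits_length, bits_length, sz_pair, sz_pair, sz_pair, sz_pair]
  have := sz_le_listBool (bits S)
  rw [bits_length] at this
  omega

theorem poly_trans (C c : ℕ) : NPC.Poly (trans C c) := by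
  unfold trans
  have h0 : NPC.Poly (unbits (List Bool × List Bool × List Bool)) := poly_unbits
  have h1 : NPC.Poly (unbits Transcript) := poly_unbits
  refine Poly.optElim h0 (by fun_prop) ?_
  refine Poly.optElim (o := fun p : List Bool × (List Bool × List Bool × List Bool) =>
    unbits Transcript p.2.2.2) (h1.comp (by fun_prop)) (by fun_prop) ?_
  have h2 : NPC.Poly (fun p : (List Bool × (List Bool × List Bool × List Bool)) × Transcript =>
      bits p.1.2) := poly_bits' (by fun_prop)
  have h3 : NPC.Poly (fun p : (List Bool × (List Bool × List Bool × List Bool)) × Transcript =>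
      bits p.2) := poly_bits' (by fun_prop)
  have h4 : NPC.Poly (fun p : (List Bool × (List Bool × List Bool × List Bool)) × Transcript =>
      bits (p.1.2.1, p.1.2.2.1, p.2)) := poly_bits' (by fun_prop)
  have e : ∀ n : ℕ, (Polynomial.C C * (Polynomial.X + 1) ^ c).eval n = C * (n + 1) ^ c := by
    intro n; simp
  have h5 : NPC.Poly (fun p : (List Bool × (List Bool × List Bool × List Bool)) × Transcript =>
      (Polynomial.C C * (Polynomial.X + 1) ^ c).eval p.1.2.1.length) :=
    (UPoly.eval (UPoly.length (l := fun p : (List Bool × (List Bool × List Bool × List Bool)) ×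
      Transcript => p.1.2.1) (by fun_prop)) _).toPoly
  refine Poly.ite ?_ (Poly.some h4) (by fun_prop)
  refine ((Poly.dec_eq h2 (g := fun p => p.1.1) (by fun_prop)).and
    ((Poly.dec_eq h3 (g := fun p => p.1.2.2.2) (by fun_prop)).and
      (Poly.decide_le (m := fun p => p.1.2.2.1.length) (by fun_prop) h5))).congr fun p => ?_
  rw [e]
  simp only [Bool.decide_and]

theorem LittleRoot.affine {r : ℕ} {q q' : ℕ → ℕ} (hq : LittleRoot r q)
    (h : ∀ n, q' n ≤ 4 * q n + 2) : LittleRoot r q' := by
  intro K
  filter_upwards [hq (6 * K), eventually_ge_atTop ((2 * K) ^ r)] with n h1 h2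
  rcases Nat.eq_zero_or_pos (q n) with h3 | h3
  · refine le_trans (Nat.pow_le_pow_left ?_ r) h2
    have := h n
    rw [h3] at this
    calc K * q' n ≤ K * 2 := Nat.mul_le_mul_left _ this
      _ = 2 * K := mul_comm _ _
  · refine le_trans (Nat.pow_le_pow_left ?_ r) h1
    have := h n
    calc K * q' n ≤ K * (6 * q n) := Nat.mul_le_mul_left _ (by omega)
      _ = 6 * K * q n := by ring

theorem LittleRoot.linear {r : ℕ} (hr : 1 ≤ r) {q : ℕ → ℕ} (hq : LittleRoot r q) :
    ∃ M, ∀ n, q n ≤ M * (n + 1) := by
  obtain ⟨n0, hn0⟩ := eventually_atTop.1 (hq 1)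
  refine ⟨(Finset.range n0).sup q + 1, fun n => ?_⟩
  rcases lt_or_ge n n0 with h | h
  · have h1 : q n ≤ (Finset.range n0).sup q := Finset.le_sup (f := q) (Finset.mem_range.2 h)
    have h2 : (Finset.range n0).sup q + 1 ≤ ((Finset.range n0).sup q + 1) * (n + 1) :=
      Nat.le_mul_of_pos_right _ (by omega)
    omega
  · have h1 := hn0 n h
    rw [one_mul] at h1
    have h2 : q n ≤ q n ^ r := Nat.le_self_pow (by omega) _
    have h3 : n + 1 ≤ ((Finset.range n0).sup q + 1) * (n + 1) :=
      Nat.le_mul_of_pos_left _ (by omega)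
    omega

/-- **Block access to long advice is a special case** of many advice strings: the transcripts. -/
theorem InBlock.inUnion {b c : ℕ} (hb : 1 ≤ b) (hc : 1 ≤ c) {L : Set (List Bool)}
    (h : InBlock b c L) : InUnion b c L := by
  classical
  obtain ⟨C, q, O, B, B', hB, hBE, hB', hBE', hq, hL⟩ := h
  obtain ⟨M, hM⟩ := hq.linear (Nat.mul_pos hb hc)
  let A : ℕ → Finset (List Bool) := fun n =>
    ((QF (q n)).filter (fun Q => alen (tr (O n) Q) ≤ C * (n + 1) ^ c ∧
      qlen (tr (O n) Q) ≤ q n)).image (fun Q => bits (tr (O n) Q))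
  have hmem : ∀ n s, s ∈ A n ↔ ∃ S : Transcript, (∀ t ∈ S, t.2 = O n t.1) ∧
      alen S ≤ C * (n + 1) ^ c ∧ qlen S ≤ q n ∧ s = bits S := by
    intro n s
    simp only [A, Finset.mem_image, Finset.mem_filter]
    constructor
    · rintro ⟨Q, ⟨_, h1, h2⟩, rfl⟩
      exact ⟨_, mem_tr, h1, h2, rfl⟩
    · rintro ⟨S, hS, h1, h2, rfl⟩
      have h3 := eq_tr hS
      refine ⟨S.map Prod.fst, ⟨mem_QF ?_, ?_, ?_⟩, ?_⟩
      · rw [← qlen_tr (O n), ← h3]
        exact h2
      · rw [← h3]; exact h1
      · rw [← h3]; exact h2
      · rw [← h3]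
  refine ⟨4 * (M + C) + 1, A, {z | ∃ y, trans C c z = some y ∧ y ∈ B},
    {z | ∃ y, trans C c z = some y ∧ y ∈ B'}, hB.preimage (poly_trans C c)
      (fun z y => length_trans_le), inEXP_preimage hBE (poly_trans C c) (fun z y => length_trans_le),
      hB'.preimage (poly_trans C c) (fun z y => length_trans_le),
      inEXP_preimage hBE' (poly_trans C c) (fun z y => length_trans_le), ?_, ?_, fun x => ?_⟩
  · intro n s hs
    obtain ⟨S, _, h1, h2, rfl⟩ := (hmem n s).1 hs
    have h3 := sz_transcript_le S
    have h4 : n + 1 ≤ (n + 1) ^ c := Nat.le_self_pow (by omega) _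
    have h5 : M * (n + 1) ≤ M * (n + 1) ^ c := Nat.mul_le_mul_left _ h4
    have h6 := hM n
    rw [bits_length]
    have h7 : (4 * (M + C) + 1) * (n + 1) ^ c = 4 * (M * (n + 1) ^ c) +
      4 * (C * (n + 1) ^ c) + (n + 1) ^ c := by ring
    omega
  · refine hq.affine fun n => ?_
    have h1 : (A n).card ≤ 2 ^ (4 * q n + 2) :=
      Finset.card_image_le.trans ((Finset.card_filter_le _ _).trans (card_QF_le _))
    have h2 := Nat.log_mono_right (b := 2) h1
    rwa [Nat.log_pow (by norm_num)] at h2
  · rw [hL x]
    constructor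
    · rintro ⟨u, S, hu, hS, h1, h2, h3, h4⟩
      have ht := trans_bits (C := C) (c := c) (x := x) (u := u) (S := S) hu
      refine ⟨u, hu.trans (Nat.mul_le_mul_right _ (by omega)), bits S,
        (hmem _ _).2 ⟨S, hS, h1, h2, rfl⟩, ⟨_, ht, h3⟩, ?_⟩
      rintro ⟨y, hy, hyB⟩
      rw [ht] at hy
      rw [← Option.some.inj hy] at hyB
      exact h4 hyB
    · rintro ⟨u, _, s, hs, ⟨y, hy, hyB⟩, h4⟩
      obtain ⟨S, hS, h1, h2, rfl⟩ := (hmem _ _).1 hs
      have hu : u.length ≤ C * (x.length + 1) ^ c := by
        by_contra hu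
        rw [trans_bits_none hu] at hy
        simp at hy
      have ht := trans_bits (C := C) (c := c) (x := x) (u := u) (S := S) hu
      refine ⟨u, S, hu, hS, h1, h2, ?_, fun h5 => h4 ⟨_, ht, h5⟩⟩
      rw [ht] at hy
      rw [Option.some.inj hy]
      exact hyB

end Pool.Agent.T9h36.NX
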