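import Pool.Agent.T9h36.NX.Tools

set_option autoImplicit false

/-!
# The complement of the universal set, with the census as advice
-/

namespace Pool.Agent.T9h36.NX

open Pool.Agent.NPC Pool.Agent.H660R2.NX Turing

attribute [local irreducible] unpair

/-- A decision problem about decodable data with exponentially long, polynomial-time verifiable
decodable certificates is in `NEXP`. -/
theorem inNEXPP_of {α β : Type} [TEnc α] [TEnc β] [TDec α] [TDec β] {P : α → Prop}
    {R : α × β → Bool} (hR : NPC.Poly R) (p : Polynomial ℕ)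
    (h : ∀ a, P a ↔ ∃ w : β, sz w ≤ 2 ^ p.eval (sz a) ∧ R (a, w) = true) : InNEXP (lang P) := by
  refine ⟨_, p, polyTime_pairTest hR, fun x => ?_⟩
  rw [mem_lang_iff]
  constructor
  · rintro ⟨a, ha, hPa⟩
    obtain ⟨w, hw, hRw⟩ := (h a).1 hPa
    have hx := bits_of_unbits ha
    refine ⟨bits w, ?_, ?_⟩
    · rw [bits_length, ← hx, bits_length]; exact hw
    · simp only [unpair_pairBits, ha, unbits_bits, hRw]
  · rintro ⟨y, hy, hV⟩
    simp only [unpair_pairBits] at hV
    cases hx : unbits α x with
    | none => rw [hx] at hV; simp at hV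
    | some a =>
      rw [hx] at hV
      cases hy' : unbits β y with
      | none => rw [hy'] at hV; simp at hV
      | some b =>
        rw [hy'] at hV
        simp only [List.cons.injEq, and_true] at hV
        refine ⟨a, rfl, (h a).2 ⟨b, ?_, hV⟩⟩
        have e1 := bits_of_unbits hx
        have e2 := bits_of_unbits hy'
        rw [← bits_length b, e2, ← bits_length a, e1]
        exact hy

/-- The members of the universal set of length `n`. -/
def KLen (n : ℕ) : Set (List Bool) := {y | y.length = n ∧ y ∈ KSet}

theorem finite_KLen (n : ℕ) : (KLen n).Finite :=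
  (List.finite_length_eq Bool n).subset fun _ hy => hy.1

/-- The census of the universal set. -/
noncomputable def census (n : ℕ) : ℕ := (KLen n).ncard

theorem census_le (n : ℕ) : census n ≤ 2 ^ n := by
  have h1 : (KLen n) ⊆ {y : List Bool | y.length = n} := fun _ hy => hy.1
  have h2 := Set.ncard_le_ncard h1 (List.finite_length_eq Bool n)
  refine h2.trans (le_of_eq ?_)
  have h3 : {y : List Bool | y.length = n} = Set.range (Subtype.val : {l : List Bool // l.length = n} → List Bool) := by
    ext y; simp
  rw [h3, Set.ncard_range_of_injective Subtype.val_injective]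
  change Nat.card (List.Vector Bool n) = _
  rw [Nat.card_eq_fintype_card, card_vector]
  simp

/-- `κ` different members of the universal set of the length of `y`, all different from `y`. -/
def NProp (p : List Bool × ℕ) : Prop := ∃ Z : List (List Bool), Z.Nodup ∧ Z.length = p.2 ∧
  ∀ z ∈ Z, z.length = p.1.length ∧ z ∈ KSet ∧ z ≠ p.1

/-- The complement of the universal set, given the census. -/
def NSet : Set (List Bool) := lang NProp

/-- The test of a certificate. -/
def nTest (p : (List Bool × ℕ) × List (List Bool × List Bool)) : Bool :=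
  (decide (p.2.length = p.1.2) &&
    (p.2.zipIdx.all fun s => p.2.zipIdx.all fun t => decide (s.2 = t.2) || !decide (s.1.1 = t.1.1))) &&
  (p.2.all fun s => ((decide (s.1.length = p.1.1.length) && decide (s.2.length ≤ 2 ^ s.1.length)) &&
    vk s.1 s.2) && !decide (s.1 = p.1.1))

theorem poly_nTest : NPC.Poly nTest := by
  have h1 : NPC.Poly (fun q : ((List Bool × ℕ) × List (List Bool × List Bool)) ×
      (List Bool × List Bool) => 2 ^ q.2.1.length) := poly_two_pow (UPoly.length (by fun_prop))
  have h2 : NPC.Poly (fun q : ((List Bool × ℕ) × List (List Bool × List Bool)) ×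
      (List Bool × List Bool) => vk q.2.1 q.2.2) := poly_vk (by fun_prop) (by fun_prop)
  have h3 : NPC.Poly (fun q : ((List Bool × ℕ) × List (List Bool × List Bool)) ×
      (List Bool × List Bool) => ((decide (q.2.1.length = q.1.1.1.length) &&
        decide (q.2.2.length ≤ 2 ^ q.2.1.length)) && vk q.2.1 q.2.2) &&
        !decide (q.2.1 = q.1.1.1)) := by
    refine NPC.Poly.and (NPC.Poly.and (NPC.Poly.and (by fun_prop) ?_) h2) (by fun_prop)
    exact NPC.Poly.decide_le (by fun_prop) h1
  unfold nTest
  refine NPC.Poly.and (NPC.Poly.and (by fun_prop) ?_) ?_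
  · fun_prop
  · exact NPC.Poly.all (by fun_prop) h3

theorem nTest_iff (y : List Bool) (κ : ℕ) (c : List (List Bool × List Bool)) :
    nTest ((y, κ), c) = true ↔ c.length = κ ∧ (c.map Prod.fst).Nodup ∧
      ∀ s ∈ c, s.1.length = y.length ∧ s.2.length ≤ 2 ^ s.1.length ∧ vk s.1 s.2 = true ∧
        s.1 ≠ y := by
  unfold nTest
  simp only [Bool.and_eq_true, decide_eq_true_eq, List.all_eq_true, Bool.or_eq_true,
    Bool.not_eq_true', decide_eq_false_iff_not]
  have h1 : (∀ s ∈ c.zipIdx, ∀ t ∈ c.zipIdx, s.2 = t.2 ∨ ¬ s.1.1 = t.1.1) ↔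
      (c.map Prod.fst).Nodup := by
    rw [List.nodup_iff_injective_get]
    constructor
    · intro h i j hij
      have hi : i.1 < c.length := by simpa using i.2
      have hj : j.1 < c.length := by simpa using j.2
      have h2 := h (c.get ⟨i.1, hi⟩, i.1) (by
        rw [List.mem_zipIdx_iff_getElem?]; simp [hi]) (c.get ⟨j.1, hj⟩, j.1) (by
        rw [List.mem_zipIdx_iff_getElem?]; simp [hj])
      rcases h2 with h2 | h2
      · exact Fin.ext h2
      · exfalso
        apply h2
        simpa using hij
    · intro h s hs t ht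
      rw [List.mem_zipIdx_iff_getElem?] at hs ht
      obtain ⟨hs1, hs2⟩ := List.getElem?_eq_some_iff.1 hs
      obtain ⟨ht1, ht2⟩ := List.getElem?_eq_some_iff.1 ht
      by_cases hst : s.1.1 = t.1.1
      · left
        have h3 : (⟨s.2, by simpa using hs1⟩ : Fin (c.map Prod.fst).length) =
            ⟨t.2, by simpa using ht1⟩ := by
          apply h
          simp only [List.get_eq_getElem, List.getElem_map]
          rw [hs2, ht2, hst]
        exact congrArg Fin.val h3
      · right; exact hst
  rw [h1]
  constructor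
  · rintro ⟨⟨h2, h3⟩, h4⟩
    exact ⟨h2, h3, fun s hs => by
      obtain ⟨⟨⟨a1, a2⟩, a3⟩, a4⟩ := h4 s hs
      exact ⟨a1, a2, a3, a4⟩⟩
  · rintro ⟨h2, h3, h4⟩
    exact ⟨⟨h2, h3⟩, fun s hs => by
      obtain ⟨a1, a2, a3, a4⟩ := h4 s hs
      exact ⟨⟨⟨a1, a2⟩, a3⟩, a4⟩⟩

theorem length_le_of_nodup {n : ℕ} {Z : List (List Bool)} (hZ : Z.Nodup)
    (h : ∀ z ∈ Z, z ∈ KLen n) : Z.length ≤ census n := by
  classical
  have h1 : Z.toFinset.card = Z.length := List.toFinset_card_of_nodup hZ
  rw [← h1, ← Set.ncard_coe_finset]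
  refine Set.ncard_le_ncard ?_ (finite_KLen n)
  intro z hz
  exact h z (by simpa using hz)

theorem inNEXP_NSet : InNEXP NSet := by
  refine inNEXPP_of (β := List (List Bool × List Bool)) (R := nTest) poly_nTest
    (2 * Polynomial.X + 5) ?_
  rintro ⟨y, κ⟩
  constructor
  · rintro ⟨Z, hZ1, hZ2, hZ3⟩
    simp only at hZ2 hZ3
    -- certificates
    have hex : ∀ z : List Bool, z ∈ KSet → ∃ w : List Bool, w.length ≤ 2 ^ z.length ∧
        vk z w = true := fun z hz => hz
    choose! f hf using hex
    refine ⟨Z.map fun z => (z, f z), ?_, ?_⟩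
    · have hlen : Z.length ≤ 2 ^ y.length := by
        refine (length_le_of_nodup hZ1 (fun z hz => ?_)).trans (census_le y.length)
        exact ⟨(hZ3 z hz).1, (hZ3 z hz).2.1⟩
      have h1 := sz_le_length_mul (Z.map fun z => (z, f z))
        ((4 * y.length + 1) + (4 * 2 ^ y.length + 1) + 1) (by
        intro s hs
        rw [List.mem_map] at hs
        obtain ⟨z, hz, rfl⟩ := hs
        have h2 := sz_listBool_le z
        have h3 := sz_listBool_le (f z)
        have h4 := (hf z (hZ3 z hz).2.1).1
        rw [(hZ3 z hz).1] at h2 h4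
        simp only [sz_pair]
        omega)
      refine h1.trans ?_
      rw [List.length_map]
      have h5 : y.length < 2 ^ y.length := Nat.lt_two_pow_self
      have h6 : y.length ≤ sz (y, κ) := by
        have := length_lt_sz y
        simp only [sz_pair]
        omega
      have h7 : (2 : ℕ) ^ (2 * y.length + 5) ≤ 2 ^ (2 * Polynomial.X + 5 : Polynomial ℕ).eval
          (sz (y, κ)) := by
        apply Nat.pow_le_pow_right (by norm_num)
        simp only [Polynomial.eval_add, Polynomial.eval_mul, Polynomial.eval_ofNat,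
          Polynomial.eval_X]
        omega
      refine le_trans ?_ h7
      have h8 : Z.length * (4 * y.length + 1 + (4 * 2 ^ y.length + 1) + 1 + 1) ≤
          2 ^ y.length * (4 * y.length + 1 + (4 * 2 ^ y.length + 1) + 1 + 1) :=
        Nat.mul_le_mul_right _ hlen
      have h9 : (2 : ℕ) ^ (2 * y.length + 5) = 32 * (2 ^ y.length * 2 ^ y.length) := by
        rw [pow_add, two_mul, pow_add]; ring
      rw [h9]
      have h10 : 1 ≤ 2 ^ y.length := Nat.one_le_two_pow
      generalize 2 ^ y.length = N at *
      nlinarith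
    · rw [nTest_iff]
      refine ⟨by rw [List.length_map]; exact hZ2, ?_, ?_⟩
      · rw [List.map_map]
        have : (Prod.fst ∘ fun z => (z, f z)) = (id : List Bool → List Bool) := rfl
        rw [this, List.map_id]
        exact hZ1
      · intro s hs
        rw [List.mem_map] at hs
        obtain ⟨z, hz, rfl⟩ := hs
        obtain ⟨a1, a2, a3⟩ := hZ3 z hz
        exact ⟨a1, (hf z a2).1, (hf z a2).2, a3⟩
  · rintro ⟨c, _, hc⟩
    rw [nTest_iff] at hc
    obtain ⟨h1, h2, h3⟩ := hc
    refine ⟨c.map Prod.fst, h2, by rw [List.length_map]; exact h1, ?_⟩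
    intro z hz
    rw [List.mem_map] at hz
    obtain ⟨s, hs, rfl⟩ := hz
    obtain ⟨a1, a2, a3, a4⟩ := h3 s hs
    exact ⟨a1, ⟨s.2, a2, a3⟩, a4⟩

/-- With the correct census, `NSet` is the complement of the universal set. -/
theorem mem_NSet_iff (y : List Bool) : bits (y, census y.length) ∈ NSet ↔ y ∉ KSet := by
  classical
  unfold NSet
  rw [bits_mem_lang]
  constructor
  · rintro ⟨Z, hZ1, hZ2, hZ3⟩ hy
    simp only at hZ2 hZ3
    have h1 : (y :: Z).Nodup := by
      rw [List.nodup_cons]
      exact ⟨fun h => (hZ3 y h).2.2 rfl, hZ1⟩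
    have h2 := length_le_of_nodup (n := y.length) h1 (by
      intro z hz
      rw [List.mem_cons] at hz
      rcases hz with rfl | hz
      · exact ⟨rfl, hy⟩
      · exact ⟨(hZ3 z hz).1, (hZ3 z hz).2.1⟩)
    rw [List.length_cons, hZ2] at h2
    omega
  · intro hy
    have hfin := finite_KLen y.length
    refine ⟨hfin.toFinset.toList, Finset.nodup_toList _, ?_, ?_⟩
    · rw [Finset.length_toList]
      simp only
      unfold census
      rw [Set.ncard_eq_toFinset_card _ hfin]
    · intro z hz
      rw [Finset.mem_toList, Set.Finite.mem_toFinset] at hz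
      refine ⟨hz.1, hz.2, ?_⟩
      rintro rfl
      exact hy hz.2

end Pool.Agent.T9h36.NX
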