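import Pool.Agent.H660R2.NX.Defs

set_option autoImplicit false

/-!
# Nonuniform classes with many advice strings, and with block access to long advice
-/

namespace Pool.Agent.T9h36.NX

open Pool.Agent.NPC Pool.Agent.H660R2.NX

/-- Nondeterministic time `2 ^ O(n ^ b)`: certificates of length at most `2 ^ (k (n + 1) ^ b)`,
verifiable in time polynomial in the length of the input together with the certificate. -/
def InNTE (b : ℕ) (L : Set (List Bool)) : Prop :=
  ∃ (V : List Bool → List Bool) (k : ℕ), PolyTime V ∧
    ∀ x, x ∈ L ↔ ∃ w : List Bool, w.length ≤ 2 ^ (k * (x.length + 1) ^ b) ∧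
      V (pairBits x w) = [true]

/-- `q n` is `o(n ^ (1 / r))`: for every `K`, `(K q(n)) ^ r ≤ n` for all large `n`. -/
def LittleRoot (r : ℕ) (q : ℕ → ℕ) : Prop :=
  ∀ K : ℕ, ∀ᶠ n in Filter.atTop, (K * q n) ^ r ≤ n

/-- The nonuniform class with many advice strings: for every length `n` there is a set `A n` of
advice strings of length `O(n ^ c)`, whose number is `2 ^ o(n ^ (1 / (b c)))`, and an input `x` of
length `n` is accepted iff for some string `u` of length `O(n ^ c)` and some `s` in `A n` the
triple `(x, u, s)` is in `B \ B'`. Here `B` and `B'` are in `NTIME(2 ^ O(n ^ b)) ∩ EXP`. -/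
def InUnion (b c : ℕ) (L : Set (List Bool)) : Prop :=
  ∃ (C : ℕ) (A : ℕ → Finset (List Bool)) (B B' : Set (List Bool)),
    InNTE b B ∧ InEXP B ∧ InNTE b B' ∧ InEXP B' ∧
    (∀ n, ∀ s ∈ A n, s.length ≤ C * (n + 1) ^ c) ∧
    LittleRoot (b * c) (fun n => Nat.log 2 (A n).card) ∧
    ∀ x : List Bool, x ∈ L ↔ ∃ u : List Bool, u.length ≤ C * (x.length + 1) ^ c ∧
      ∃ s ∈ A x.length, bits (x, u, s) ∈ B ∧ bits (x, u, s) ∉ B'

/-- A transcript of queries: a list of pairs (query, answer). -/
abbrev Transcript := List (List Bool × List Bool)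

/-- The total length of the queries (each query counts one more). -/
def qlen (S : Transcript) : ℕ := (S.map fun s => s.1.length + 1).sum

/-- The total length of the answers. -/
def alen (S : Transcript) : ℕ := (S.map fun s => s.2.length).sum

/-- The nonuniform class with block access to long advice: an input `x` of length `n` is accepted
iff for some string `u` of length `O(n ^ c)` and some transcript `S` that is correct for the
(arbitrary) function `O n`, with total answer length `O(n ^ c)` and total query length at most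
`q n`, where `q n = o(n ^ (1 / (b c)))`, the triple `(x, u, S)` is in `B \ B'`. Here `B` and `B'`
are in `NTIME(2 ^ O(n ^ b)) ∩ EXP`. -/
def InBlock (b c : ℕ) (L : Set (List Bool)) : Prop :=
  ∃ (C : ℕ) (q : ℕ → ℕ) (O : ℕ → List Bool → List Bool) (B B' : Set (List Bool)),
    InNTE b B ∧ InEXP B ∧ InNTE b B' ∧ InEXP B' ∧ LittleRoot (b * c) q ∧
    ∀ x : List Bool, x ∈ L ↔ ∃ (u : List Bool) (S : Transcript),
      u.length ≤ C * (x.length + 1) ^ c ∧ (∀ s ∈ S, s.2 = O x.length s.1) ∧
      alen S ≤ C * (x.length + 1) ^ c ∧ qlen S ≤ q x.length ∧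
      bits (x, u, S) ∈ B ∧ bits (x, u, S) ∉ B'

end Pool.Agent.T9h36.NX
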