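import Mathlib

set_option autoImplicit false

/-!
# The labels that make Littlestone's Winnow algorithm err on every example

`hist g F xs` is the list of the examples `xs` (latest first) with their labels; the label of an
example is the opposite of the prediction of the Winnow algorithm (with the features `F`) on it.
If the labels are those of a disjunction of `s` features, there are at most
`2 s (log₂ |F| + 1) + 1` examples.
-/

namespace Pool.Agent.T9h36.NX

variable {X F : Type}

/-- The update of the weight of the feature `t`. -/
def wtStep (g : X → F → Bool) (t : F) (p : X × Bool) (w : ℕ) : ℕ :=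
  if g p.1 t = true then (if p.2 = true then w + w else 0) else w

/-- The weight of the feature `t` after the labelled examples `h`. -/
def wt (g : X → F → Bool) (t : F) (h : List (X × Bool)) : ℕ := h.foldr (wtStep g t) 1

/-- The weight of the features present in `x`. -/
def tot (g : X → F → Bool) (L : List F) (h : List (X × Bool)) (x : X) : ℕ :=
  (L.map fun t => if g x t = true then wt g t h else 0).sum

/-- The next label: the opposite of the prediction. -/
def label (g : X → F → Bool) (L : List F) (h : List (X × Bool)) (x : X) : Bool :=
  decide (tot g L h x < L.length)

/-- The labelled examples. -/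
def hist (g : X → F → Bool) (L : List F) (xs : List X) : List (X × Bool) :=
  xs.foldr (fun x h => (x, label g L h x) :: h) []

theorem hist_cons (g : X → F → Bool) (L : List F) (x : X) (xs : List X) :
    hist g L (x :: xs) = (x, label g L (hist g L xs) x) :: hist g L xs := rfl

theorem length_hist (g : X → F → Bool) (L : List F) (xs : List X) :
    (hist g L xs).length = xs.length := by
  induction xs with
  | nil => rfl
  | cons x xs ih => rw [hist_cons, List.length_cons, List.length_cons, ih]

theorem map_fst_hist (g : X → F → Bool) (L : List F) (xs : List X) :
    (hist g L xs).map Prod.fst = xs := by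
  induction xs with
  | nil => rfl
  | cons x xs ih => rw [hist_cons, List.map_cons, ih]

/-- The sum of all weights. -/
def pot (g : X → F → Bool) (L : List F) (h : List (X × Bool)) : ℕ := (L.map fun t => wt g t h).sum

theorem wt_cons (g : X → F → Bool) (t : F) (p : X × Bool) (h : List (X × Bool)) :
    wt g t (p :: h) = wtStep g t p (wt g t h) := rfl

theorem pot_true (g : X → F → Bool) (L : List F) (h : List (X × Bool)) (x : X) :
    pot g L ((x, true) :: h) = pot g L h + tot g L h x := by
  unfold pot tot
  rw [← List.sum_map_add]
  congr 1
  apply List.map_congr_left
  intro t _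
  rw [wt_cons, wtStep]
  by_cases hg : g x t = true <;> simp [hg]

theorem pot_false (g : X → F → Bool) (L : List F) (h : List (X × Bool)) (x : X) :
    pot g L ((x, false) :: h) + tot g L h x = pot g L h := by
  unfold pot tot
  rw [← List.sum_map_add]
  congr 1
  apply List.map_congr_left
  intro t _
  rw [wt_cons, wtStep]
  by_cases hg : g x t = true <;> simp [hg]

/-- The potential argument. -/
theorem pot_hist (g : X → F → Bool) (L : List F) (xs : List X) :
    pot g L (hist g L xs) + (hist g L xs).countP (fun p => !p.2) * L.length ≤
      L.length + (hist g L xs).countP (fun p => p.2) * L.length := by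
  induction xs with
  | nil => simp [hist, pot, wt]
  | cons x xs ih =>
    rw [hist_cons]
    by_cases hl : tot g L (hist g L xs) x < L.length
    · have e : label g L (hist g L xs) x = true := by simp [label, hl]
      rw [e, pot_true, List.countP_cons, List.countP_cons]
      simp only [Bool.not_true, Bool.false_eq_true, if_false, if_true, add_zero]
      rw [Nat.add_mul]
      omega
    · have e : label g L (hist g L xs) x = false := by simp [label, hl]
      have h1 := pot_false g L (hist g L xs) x
      rw [e, List.countP_cons, List.countP_cons]
      simp only [Bool.not_false, Bool.false_eq_true, if_false, if_true, add_zero]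
      rw [Nat.add_mul]
      omega

/-- A feature that is present only in positive examples is promoted at most `log₂ |F| + 1` times. -/
theorem wt_hist (g : X → F → Bool) (L : List F) (xs : List X) (t : F) (ht : t ∈ L)
    (hpos : ∀ p ∈ hist g L xs, g p.1 t = true → p.2 = true) :
    wt g t (hist g L xs) = 2 ^ (hist g L xs).countP (fun p => g p.1 t) ∧
      (hist g L xs).countP (fun p => g p.1 t) ≤ Nat.log 2 L.length + 1 := by
  induction xs with
  | nil => simp [hist, wt]
  | cons x xs ih =>
    rw [hist_cons] at hpos ⊢
    obtain ⟨ih1, ih2⟩ := ih (fun p hp => hpos p (List.mem_cons_of_mem _ hp))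
    have hx := hpos _ (List.mem_cons_self (a := (x, label g L (hist g L xs) x)))
    simp only at hx
    rw [wt_cons, List.countP_cons]
    by_cases hg : g x t = true
    · have hl := hx hg
      have h1 : tot g L (hist g L xs) x < L.length := by simpa [label] using hl
      have h2 : wt g t (hist g L xs) ≤ tot g L (hist g L xs) x := by
        unfold tot
        refine List.single_le_sum (by simp) _ ?_
        rw [List.mem_map]
        exact ⟨t, ht, by simp [hg]⟩
      have h3 : 2 ^ (hist g L xs).countP (fun p => g p.1 t) < L.length := by omega
      constructor
      · rw [wtStep]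
        simp only [hg, if_true, hl]
        rw [ih1, pow_succ]
        omega
      · simp only [hg, if_true]
        have h4 := Nat.le_log_of_pow_le (by norm_num : 1 < 2) h3.le
        omega
    · have hg' : g x t = false := by simpa using hg
      constructor
      · rw [wtStep]
        simp only [hg', Bool.false_eq_true, if_false, add_zero]
        exact ih1
      · simp only [hg', Bool.false_eq_true, if_false, add_zero]
        exact ih2

/-- Every positive example contains a feature of the disjunction. -/
theorem countP_le_sum (g : X → F → Bool) (T : Finset F) (h : List (X × Bool))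
    (hlab : ∀ p ∈ h, p.2 = true → ∃ t ∈ T, g p.1 t = true) :
    h.countP (fun p => p.2) ≤ ∑ t ∈ T, h.countP (fun p => g p.1 t) := by
  induction h with
  | nil => simp
  | cons p h ih =>
    have ih' := ih (fun q hq => hlab q (List.mem_cons_of_mem _ hq))
    simp only [List.countP_cons]
    rw [Finset.sum_add_distrib]
    refine Nat.add_le_add ih' ?_
    by_cases hp : p.2 = true
    · obtain ⟨t, ht, hg⟩ := hlab p List.mem_cons_self hp
      simp only [hp, if_true]
      calc 1 = (if g p.1 t = true then 1 else 0) := by simp [hg]
        _ ≤ ∑ t ∈ T, (if g p.1 t = true then 1 else 0) :=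
          Finset.single_le_sum (f := fun t => if g p.1 t = true then 1 else 0)
            (fun _ _ => Nat.zero_le _) ht
    · simp [hp]

/-- **The mistake bound of Winnow.** -/
theorem winnow (g : X → F → Bool) (L : List F) (h0 : 0 < L.length) (xs : List X) (T : Finset F)
    (hT : ∀ t ∈ T, t ∈ L)
    (hlab : ∀ p ∈ hist g L xs, (p.2 = true ↔ ∃ t ∈ T, g p.1 t = true)) :
    xs.length ≤ 2 * (T.card * (Nat.log 2 L.length + 1)) + 1 := by
  have h1 : (hist g L xs).countP (fun p => p.2) ≤ T.card * (Nat.log 2 L.length + 1) := by
    refine (countP_le_sum g T _ (fun p hp => (hlab p hp).1)).trans ?_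
    refine (Finset.sum_le_card_nsmul T _ (Nat.log 2 L.length + 1) ?_).trans (by simp)
    intro t ht
    exact (wt_hist g L xs t (hT t ht) (fun p hp hg => (hlab p hp).2 ⟨t, ht, hg⟩)).2
  have h2 := pot_hist g L xs
  have h3 : (hist g L xs).length = xs.length := length_hist g L xs
  have h4 : (hist g L xs).length = (hist g L xs).countP (fun p => p.2) +
      (hist g L xs).countP (fun p => !p.2) := by
    rw [List.length_eq_countP_add_countP (fun p : X × Bool => p.2)]
    congr 1
    apply List.countP_congr
    intro p _
    simp
  have h5 : (hist g L xs).countP (fun p => !p.2) ≤ (hist g L xs).countP (fun p => p.2) + 1 := by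
    have h6 : (hist g L xs).countP (fun p => !p.2) * L.length ≤
        ((hist g L xs).countP (fun p => p.2) + 1) * L.length := by
      rw [Nat.add_mul]
      omega
    exact Nat.le_of_mul_le_mul_right h6 h0
  omega

end Pool.Agent.T9h36.NX
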