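import Pool.Agent.T9h36.NX.Census
import Pool.Agent.T9h36.NX.Winnow

set_option autoImplicit false

/-!
# The diagonal language
-/

namespace Pool.Agent.T9h36.NX

open Pool.Agent.NPC Pool.Agent.H660R2.NX Turing

attribute [local irreducible] unpair

theorem poly_bits' {α β : Type} [TEnc α] [TEnc β] {f : α → β} (hf : NPC.Poly f) :
    NPC.Poly (fun a => bits (f a)) := by
  have h : NPC.Poly (fun b : β => bits b) :=
    PC.comp (g := fun x => x) (f := fun b : β => bits b) PC.rawIn
      (PC.id (ea := (bits : β → List Bool)))
  exact h.comp hf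

/-- Two sets in `EXP`, given by decision procedures and the exponents of the padding. -/
structure Two where
  V : List Bool → List Bool
  p : Polynomial ℕ
  V' : List Bool → List Bool
  p' : Polynomial ℕ
  hV : PolyTime V
  hV' : PolyTime V'

/-- Whether for some string `u`, not longer than `U`, the triple `(y, u, S)` is in the first but not
in the second set. -/
def Two.inner (D : Two) (y : List Bool) (U : List Unit) (S : List Bool) (pad : List Unit) : Bool :=
  (allB U.length pad).any fun u => inE D.V D.p (bits (y, u, S)) pad &&
    !inE D.V' D.p' (bits (y, u, S)) pad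

theorem Two.poly_inner (D : Two) {α : Type} [TEnc α] {y : α → List Bool} {U : α → List Unit}
    {S : α → List Bool} {pad : α → List Unit} (hy : NPC.Poly y) (hU : NPC.Poly U)
    (hS : NPC.Poly S) (hpad : NPC.Poly pad) :
    NPC.Poly (fun a => D.inner (y a) (U a) (S a) (pad a)) := by
  have h1 : NPC.Poly (fun a => allB (U a).length (pad a)) := poly_allB (UPoly.length hU) hpad
  have h2 : NPC.Poly (fun q : α × List Bool => bits (y q.1, q.2, S q.1)) :=
    poly_bits' (NPC.Poly.pair (hy.comp (by fun_prop)) (NPC.Poly.pair (by fun_prop)
      (hS.comp (by fun_prop))))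
  have h3 : NPC.Poly (fun q : α × List Bool => pad q.1) := hpad.comp (by fun_prop)
  have h4 : NPC.Poly (fun q : α × List Bool => inE D.V D.p (bits (y q.1, q.2, S q.1)) (pad q.1)) :=
    poly_inE D.hV D.p h2 h3
  have h5 : NPC.Poly (fun q : α × List Bool =>
      inE D.V' D.p' (bits (y q.1, q.2, S q.1)) (pad q.1)) := poly_inE D.hV' D.p' h2 h3
  exact NPC.Poly.any h1 (NPC.Poly.and h4 (NPC.Poly.not h5))

/-- The data of a feature: code and padding of the positive and of the negative instance of the
universal set; bound for `u` and advice string; then for the positive instance: its length, the bound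
for the string and the advice string; for the negative instance: its length and the census; the length
of the instance of `NSet`, the bound for the string and the advice string. -/
abbrev Feat : Type :=
  (Code × List Unit) × (Code × List Unit) × (List Unit × List Bool) ×
    (List Unit × List Unit × List Bool) × (List Unit × ℕ) × (List Unit × List Unit × List Bool)

/-- The instance of the universal set. -/
def inst (e : Code × List Unit) (z : List Bool) : List Bool := bits (e.1, z, e.2)

/-- Whether the feature `f` is present in the input `x`. -/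
def present (K N : Two) (x : List Bool) (f : Feat) (pad : List Unit) : Bool :=
  (allB f.2.2.1.1.length pad).any fun u =>
    (decide ((inst f.1 (bits (x, u, f.2.2.1.2))).length = f.2.2.2.1.1.length) &&
      K.inner (inst f.1 (bits (x, u, f.2.2.1.2))) f.2.2.2.1.2.1 f.2.2.2.1.2.2 pad) &&
    ((decide ((inst f.2.1 (bits (x, u, f.2.2.1.2))).length = f.2.2.2.2.1.1.length) &&
      decide ((bits (inst f.2.1 (bits (x, u, f.2.2.1.2)), f.2.2.2.2.1.2)).length =
        f.2.2.2.2.2.1.length)) &&
      N.inner (bits (inst f.2.1 (bits (x, u, f.2.2.1.2)), f.2.2.2.2.1.2)) f.2.2.2.2.2.2.1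
        f.2.2.2.2.2.2.2 pad)

theorem poly_present (K N : Two) : NPC.Poly (fun q : List Bool × Feat × List Unit =>
    present K N q.1 q.2.1 q.2.2) := by
  unfold present
  have hz : NPC.Poly (fun r : (List Bool × Feat × List Unit) × List Bool =>
      bits (r.1.1, r.2, r.1.2.1.2.2.1.2)) := poly_bits' (by fun_prop)
  have h1 : NPC.Poly (fun r : (List Bool × Feat × List Unit) × List Bool =>
      inst r.1.2.1.1 (bits (r.1.1, r.2, r.1.2.1.2.2.1.2))) := by
    unfold inst
    exact poly_bits' (by fun_prop)
  have h2 : NPC.Poly (fun r : (List Bool × Feat × List Unit) × List Bool =>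
      inst r.1.2.1.2.1 (bits (r.1.1, r.2, r.1.2.1.2.2.1.2))) := by
    unfold inst
    exact poly_bits' (by fun_prop)
  have h3 : NPC.Poly (fun r : (List Bool × Feat × List Unit) × List Bool =>
      bits (inst r.1.2.1.2.1 (bits (r.1.1, r.2, r.1.2.1.2.2.1.2)), r.1.2.1.2.2.2.2.1.2)) :=
    poly_bits' (NPC.Poly.pair h2 (by fun_prop))
  have h4 : NPC.Poly (fun q : List Bool × Feat × List Unit =>
      allB q.2.1.2.2.1.1.length q.2.2) := poly_allB (UPoly.length (by fun_prop)) (by fun_prop)
  refine NPC.Poly.any h4 ?_
  refine NPC.Poly.and (NPC.Poly.and ?_ ?_) (NPC.Poly.and (NPC.Poly.and ?_ ?_) ?_)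
  · exact NPC.Poly.dec_eq (NPC.Poly.length h1) (by fun_prop)
  · exact K.poly_inner h1 (by fun_prop) (by fun_prop) (by fun_prop)
  · exact NPC.Poly.dec_eq (NPC.Poly.length h2) (by fun_prop)
  · exact NPC.Poly.dec_eq (NPC.Poly.length h3) (by fun_prop)
  · exact N.poly_inner h3 (by fun_prop) (by fun_prop) (by fun_prop)

/-- The same for codes of features. -/
def presentB (K N : Two) (pad : List Unit) (x t : List Bool) : Bool :=
  (unbits Feat t).any fun f => present K N x f pad

theorem poly_presentB (K N : Two) : NPC.Poly (fun q : List Unit × List Bool × List Bool =>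
    presentB K N q.1 q.2.1 q.2.2) := by
  unfold presentB
  have h0 : NPC.Poly (unbits Feat) := poly_unbits
  have h1 : NPC.Poly (fun q : List Unit × List Bool × List Bool => unbits Feat q.2.2) :=
    h0.comp (by fun_prop)
  refine NPC.Poly.optAny_fp h1 ?_
  exact (poly_present K N).comp (f := fun r : (List Unit × List Bool × List Bool) × Feat =>
    (r.1.2.1, r.2, r.1.1)) (by fun_prop)

/-- The inputs of length `n`. -/
def inputs (n : ℕ) (pad : List Unit) : List (List Bool) :=
  (allB n pad).filter fun y => decide (y.length = n)

/-- The decision procedure of the diagonal language. -/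
def diag (K N : Two) (P : Polynomial ℕ) (x : List Bool) (pad : List Unit) : Bool :=
  decide ((x, true) ∈ hist (presentB K N pad) (allB (P.eval x.length) pad) (inputs x.length pad))

end Pool.Agent.T9h36.NX
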