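import Pool.Agent.T9h36.NX.Diag

set_option autoImplicit false

/-!
# The diagonal language is in `EXP`
-/

namespace Pool.Agent.T9h36.NX

open Pool.Agent.NPC Pool.Agent.H660R2.NX Turing

attribute [local irreducible] unpair

variable {α X F : Type} [TEnc α] [TEnc X] [TEnc F]

theorem wt_le (g : X → F → Bool) (t : F) (h : List (X × Bool)) : wt g t h ≤ 2 ^ h.length := by
  induction h with
  | nil => simp [wt]
  | cons p h ih =>
    rw [wt_cons, wtStep, List.length_cons, pow_succ]
    split_ifs <;> omega

theorem poly_wt {g : α → X → F → Bool} (hg : NPC.Poly (fun q : α × X × F => g q.1 q.2.1 q.2.2))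
    {β : Type} [TEnc β] {a : β → α} {t : β → F} {h : β → List (X × Bool)} (ha : NPC.Poly a)
    (ht : NPC.Poly t) (hh : NPC.Poly h) : NPC.Poly (fun b => wt (g (a b)) (t b) (h b)) := by
  obtain ⟨q, hq⟩ := hh.sz_le
  refine NPC.Poly.foldr (l := h) (s := fun _ => 1)
    (F := fun b p w => wtStep (g (a b)) (t b) p w) hh (by fun_prop) ?_ (4 * q + 5) ?_
  · unfold wtStep
    have h1 : NPC.Poly (fun r : β × (X × Bool) × ℕ => g (a r.1) r.2.1.1 (t r.1)) :=
      hg.comp (f := fun r : β × (X × Bool) × ℕ => (a r.1, r.2.1.1, t r.1))
        (NPC.Poly.pair (ha.comp (by fun_prop)) (NPC.Poly.pair (by fun_prop)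
          (ht.comp (by fun_prop))))
    refine NPC.Poly.ite (NPC.Poly.decide_bool h1) ?_ (by fun_prop)
    fun_prop
  · intro b k hk
    have h1 := wt_le (g (a b)) (t b) ((h b).drop k)
    have h2 := hq b
    have h3 := length_lt_sz (h b)
    have h4 : ((h b).drop k).length ≤ (h b).length := by simp
    have h5 : (wt (g (a b)) (t b) ((h b).drop k)).size ≤ (h b).length + 1 := by
      rw [Nat.size_le]
      refine lt_of_le_of_lt (h1.trans (Nat.pow_le_pow_right (by norm_num) h4)) ?_
      rw [pow_succ]
      have := Nat.one_le_two_pow (n := (h b).length)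
      omega
    have h6 := sz_nat_le (wt (g (a b)) (t b) ((h b).drop k))
    change sz (wt (g (a b)) (t b) ((h b).drop k)) ≤ _
    simp only [Polynomial.eval_add, Polynomial.eval_mul, Polynomial.eval_ofNat]
    omega

theorem poly_label {g : α → X → F → Bool} (hg : NPC.Poly (fun q : α × X × F => g q.1 q.2.1 q.2.2))
    {β : Type} [TEnc β] {a : β → α} {L : β → List F} {h : β → List (X × Bool)} {x : β → X}
    (ha : NPC.Poly a) (hL : NPC.Poly L) (hh : NPC.Poly h) (hx : NPC.Poly x) :
    NPC.Poly (fun b => label (g (a b)) (L b) (h b) (x b)) := by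
  unfold label tot
  have h1 : NPC.Poly (fun r : β × F => g (a r.1) (x r.1) r.2) :=
    hg.comp (f := fun r : β × F => (a r.1, x r.1, r.2))
      (NPC.Poly.pair (ha.comp (by fun_prop)) (NPC.Poly.pair (hx.comp (by fun_prop))
        (by fun_prop)))
  have h2 : NPC.Poly (fun r : β × F => wt (g (a r.1)) r.2 (h r.1)) :=
    poly_wt hg (ha.comp (by fun_prop)) (by fun_prop) (hh.comp (by fun_prop))
  have h3 : NPC.Poly (fun r : β × F => if g (a r.1) (x r.1) r.2 = true then
      wt (g (a r.1)) r.2 (h r.1) else 0) :=
    NPC.Poly.ite (NPC.Poly.decide_bool h1) h2 (by fun_prop)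
  exact NPC.Poly.decide_lt (NPC.Poly.sum (NPC.Poly.map hL h3)) (NPC.Poly.length hL)

theorem poly_hist {g : α → X → F → Bool} (hg : NPC.Poly (fun q : α × X × F => g q.1 q.2.1 q.2.2))
    {β : Type} [TEnc β] {a : β → α} {L : β → List F} {xs : β → List X}
    (ha : NPC.Poly a) (hL : NPC.Poly L) (hxs : NPC.Poly xs) :
    NPC.Poly (fun b => hist (g (a b)) (L b) (xs b)) := by
  obtain ⟨q, hq⟩ := hxs.sz_le
  refine NPC.Poly.foldr (l := xs) (s := fun _ => ([] : List (X × Bool)))
    (F := fun b x h => (x, label (g (a b)) (L b) h x) :: h) hxs (by fun_prop) ?_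
    (6 * q + 5) ?_
  · have h1 : NPC.Poly (fun r : β × X × List (X × Bool) =>
        label (g (a r.1)) (L r.1) r.2.2 r.2.1) :=
      poly_label hg (ha.comp (by fun_prop)) (hL.comp (by fun_prop)) (by fun_prop) (by fun_prop)
    exact NPC.Poly.cons (NPC.Poly.pair (by fun_prop) h1) (by fun_prop)
  · intro b k hk
    have key : ∀ ys : List X, sz (hist (g (a b)) (L b) ys) ≤ 6 * sz ys := by
      intro ys
      induction ys with
      | nil => simp [hist]
      | cons y ys ih =>
        rw [hist_cons]
        have := sz_bool_le (label (g (a b)) (L b) (hist (g (a b)) (L b) ys) y)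
        have h1 := sz_pos ys
        simp only [sz_list_cons, sz_pair]
        omega
    have h1 := key ((xs b).drop k)
    have h2 := NPC.Poly.sz_drop_le (xs b) k
    have h3 := hq b
    change sz (hist (g (a b)) (L b) ((xs b).drop k)) ≤ _
    simp only [Polynomial.eval_add, Polynomial.eval_mul, Polynomial.eval_ofNat]
    omega

theorem poly_diag (K N : Two) (P : Polynomial ℕ) :
    NPC.Poly (fun q : List Bool × List Unit => diag K N P q.1 q.2) := by
  unfold diag inputs
  have h1 : NPC.Poly (fun q : List Bool × List Unit => allB (P.eval q.1.length) q.2) :=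
    poly_allB (UPoly.eval (UPoly.length (by fun_prop)) P) (by fun_prop)
  have h2 : NPC.Poly (fun q : List Bool × List Unit => allB q.1.length q.2) :=
    poly_allB (UPoly.length (by fun_prop)) (by fun_prop)
  have h3 : NPC.Poly (fun q : List Bool × List Unit =>
      (allB q.1.length q.2).filter fun y => decide (y.length = q.1.length)) :=
    NPC.Poly.filter h2 (by fun_prop)
  have h4 : NPC.Poly (fun q : List Bool × List Unit =>
      hist (presentB K N q.2) (allB (P.eval q.1.length) q.2)
        ((allB q.1.length q.2).filter fun y => decide (y.length = q.1.length))) :=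
    poly_hist (α := List Unit) (g := fun pad => presentB K N pad) (poly_presentB K N)
      (by fun_prop) h1 h3
  exact NPC.Poly.dec_mem (by fun_prop) h4

/-- The diagonal language: padding of length `2 ^ R(n)`. -/
def Diag (K N : Two) (P R : Polynomial ℕ) : Set (List Bool) :=
  {x | diag K N P x (List.replicate (2 ^ R.eval x.length) ()) = true}

theorem inNEXP_Diag (K N : Two) (P R : Polynomial ℕ) : InNEXP (Diag K N P R) :=
  inNEXP_of (D := diag K N P) (poly_diag K N P) R fun _ => Iff.rfl

theorem inEXP_Diag (K N : Two) (P R : Polynomial ℕ) : InEXP (Diag K N P R) :=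
  inEXP_of (D := diag K N P) (poly_diag K N P) R fun _ => Iff.rfl

theorem nodup_allStr : ∀ n, (allStr n).Nodup
  | 0 => by simp [allStr]
  | n + 1 => by
    rw [allStr, List.nodup_cons]
    constructor
    · rw [List.mem_flatMap]
      rintro ⟨z, _, hz⟩
      simp at hz
    · rw [List.nodup_flatMap]
      refine ⟨fun z _ => by simp, ?_⟩
      refine (nodup_allStr n).imp ?_
      intro a b hab
      rw [Function.onFun, List.disjoint_left]
      intro c hc hc'
      simp only [List.mem_cons, List.not_mem_nil, or_false] at hc hc'
      rcases hc with rfl | rfl <;> simp_all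

/-- **The diagonal language is not a union of few features.** Let `pad` be the padding for the
length `n`, long enough for the lists of the strings of length at most `P(n)` and at most `n`. If
the members of length `n` of the diagonal language are those inputs in which one of the features
in `T` is present, then `T` is large. -/
theorem Diag_bound (K N : Two) (P R : Polynomial ℕ) (n : ℕ) (hP : P.eval n ≤ R.eval n)
    (hn : n ≤ R.eval n) (T : Finset (List Bool)) (hT : ∀ t ∈ T, t.length ≤ P.eval n)
    (h : ∀ x : List Bool, x.length = n → (x ∈ Diag K N P R ↔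
      ∃ t ∈ T, presentB K N (List.replicate (2 ^ R.eval n) ()) x t = true)) :
    2 ^ n ≤ 2 * (T.card * (P.eval n + 2)) + 1 := by
  set pad : List Unit := List.replicate (2 ^ R.eval n) () with hpad
  have hlen : pad.length = 2 ^ R.eval n := by rw [hpad, List.length_replicate]
  have e1 : allB (P.eval n) pad = allStr (P.eval n) :=
    allB_eq (by rw [hlen]; exact Nat.pow_le_pow_right (by norm_num) hP)
  have e2 : allB n pad = allStr n :=
    allB_eq (by rw [hlen]; exact Nat.pow_le_pow_right (by norm_num) hn)
  have hin : ∀ x, x ∈ inputs n pad ↔ x.length = n := by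
    intro x
    unfold inputs
    rw [e2, List.mem_filter, mem_allStr]
    simp only [decide_eq_true_eq]
    omega
  have hnd : (allStr n).Nodup := nodup_allStr n
  have hnd' : (inputs n pad).Nodup := by
    unfold inputs
    rw [e2]
    exact hnd.filter _
  have hw := winnow (presentB K N pad) (allB (P.eval n) pad) (by
    rw [e1]
    have := length_allStr (P.eval n)
    have h2 := Nat.one_le_two_pow (n := P.eval n)
    rw [pow_succ] at this
    omega) (inputs n pad) T (by
    intro t ht
    rw [e1, mem_allStr]
    exact hT t ht) (by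
    intro p hp
    have hp1 : p.1 ∈ inputs n pad := by
      have : p.1 ∈ (hist (presentB K N pad) (allB (P.eval n) pad) (inputs n pad)).map Prod.fst :=
        List.mem_map_of_mem hp
      rwa [map_fst_hist] at this
    have hlen1 : p.1.length = n := (hin _).1 hp1
    rw [← h p.1 hlen1]
    have hD : p.1 ∈ Diag K N P R ↔
        (p.1, true) ∈ hist (presentB K N pad) (allB (P.eval n) pad) (inputs n pad) := by
      change diag K N P p.1 (List.replicate (2 ^ R.eval p.1.length) ()) = true ↔ _
      unfold diag
      rw [hlen1, ← hpad, decide_eq_true_iff]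
    rw [hD]
    constructor
    · intro h2
      have : p = (p.1, true) := Prod.ext rfl h2
      rwa [this] at hp
    · intro h2
      -- the labels are unique
      have hndm : ((hist (presentB K N pad) (allB (P.eval n) pad) (inputs n pad)).map
          Prod.fst).Nodup := by rw [map_fst_hist]; exact hnd'
      have := List.inj_on_of_nodup_map hndm hp h2 rfl
      rw [this])
  have hcount : 2 ^ n ≤ (inputs n pad).length := by
    classical
    have h1 : (inputs n pad).toFinset.card = (inputs n pad).length :=
      List.toFinset_card_of_nodup hnd'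
    rw [← h1]
    have h2 : Fintype.card (List.Vector Bool n) = 2 ^ n := by rw [card_vector]; simp
    rw [← h2, ← Finset.card_univ]
    refine Finset.card_le_card_of_injOn (fun v => v.1) ?_ ?_
    · intro v _
      simp only [Finset.mem_coe, List.mem_toFinset]
      exact (hin _).2 v.2
    · intro v _ w _ hvw
      exact Subtype.ext hvw
  have hlog : Nat.log 2 (allB (P.eval n) pad).length ≤ P.eval n + 1 := by
    rw [e1]
    refine Nat.le_of_lt_succ (Nat.log_lt_of_lt_pow' (by omega) ?_)
    have := length_allStr (P.eval n)
    have h3 : 2 ^ (P.eval n + 1) ≤ 2 ^ (P.eval n + 1 + 1) :=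
      Nat.pow_le_pow_right (by norm_num) (by omega)
    have h4 : (P.eval n + 1).succ = P.eval n + 1 + 1 := rfl
    rw [h4]
    omega
  refine hcount.trans (hw.trans ?_)
  have : T.card * (Nat.log 2 (allB (P.eval n) pad).length + 1) ≤ T.card * (P.eval n + 2) :=
    Nat.mul_le_mul_left _ (by omega)
  omega

end Pool.Agent.T9h36.NX
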