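import Pool.Agent.T9h36.NX.Main

set_option autoImplicit false

/-!
# Asymptotics, and the theorem
-/

namespace Pool.Agent.T9h36.NX

open Pool.Agent.NPC Pool.Agent.H660R2.NX Turing Filter

/-- `f` is `O((n + 1) ^ k)`. -/
def PB (k : ℕ) (f : ℕ → ℕ) : Prop := ∃ D, ∀ n, f n ≤ D * (n + 1) ^ k

theorem PB.const (k c : ℕ) : PB k (fun _ => c) :=
  ⟨c, fun n => Nat.le_mul_of_pos_right _ (by positivity)⟩

theorem PB.add {k : ℕ} {f g : ℕ → ℕ} (hf : PB k f) (hg : PB k g) : PB k (fun n => f n + g n) := by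
  obtain ⟨D, hD⟩ := hf
  obtain ⟨D', hD'⟩ := hg
  exact ⟨D + D', fun n => by rw [Nat.add_mul]; exact Nat.add_le_add (hD n) (hD' n)⟩

theorem PB.mono {k l : ℕ} {f : ℕ → ℕ} (h : k ≤ l) (hf : PB k f) : PB l f := by
  obtain ⟨D, hD⟩ := hf
  exact ⟨D, fun n => (hD n).trans (Nat.mul_le_mul_left _ (Nat.pow_le_pow_right (by omega) h))⟩

theorem PB.mul {k l : ℕ} {f g : ℕ → ℕ} (hf : PB k f) (hg : PB l g) :
    PB (k + l) (fun n => f n * g n) := by
  obtain ⟨D, hD⟩ := hf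
  obtain ⟨D', hD'⟩ := hg
  refine ⟨D * D', fun n => (Nat.mul_le_mul (hD n) (hD' n)).trans (le_of_eq ?_)⟩
  rw [pow_add]
  ring

theorem PB.const_mul {k : ℕ} {f : ℕ → ℕ} (c : ℕ) (hf : PB k f) : PB k (fun n => c * f n) := by
  obtain ⟨D, hD⟩ := hf
  exact ⟨c * D, fun n => by rw [mul_assoc]; exact Nat.mul_le_mul_left _ (hD n)⟩

theorem PB.succ_pow {k : ℕ} {f : ℕ → ℕ} (hf : PB k f) (j : ℕ) :
    PB (k * j) (fun n => (f n + 1) ^ j) := by
  obtain ⟨D, hD⟩ := hf.add (PB.const k 1)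
  refine ⟨D ^ j, fun n => ?_⟩
  refine (Nat.pow_le_pow_left (hD n) j).trans (le_of_eq ?_)
  rw [mul_pow, pow_mul]

theorem PB.id {k : ℕ} (hk : 1 ≤ k) : PB k (fun n => n) :=
  ⟨1, fun n => by
    have := Nat.le_self_pow (n := k) (by omega) (n + 1)
    show n ≤ 1 * (n + 1) ^ k
    omega⟩

theorem PB.succ_pow_self (k : ℕ) : PB k (fun n => (n + 1) ^ k) := ⟨1, fun n => by show (n + 1) ^ k ≤ 1 * (n + 1) ^ k; omega⟩

theorem PB.eventually {k : ℕ} {f : ℕ → ℕ} (hf : PB k f) :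
    ∀ᶠ n : ℕ in atTop, f n ≤ (n + 1) ^ (k + 1) := by
  obtain ⟨D, hD⟩ := hf
  filter_upwards [eventually_ge_atTop D] with n hn
  refine (hD n).trans ?_
  rw [pow_succ, mul_comm]
  exact Nat.mul_le_mul_left _ (by omega)

theorem eventually_lt {β : ℝ} (hβ : β < 1) (a k c : ℝ) :
    ∀ᶠ n : ℕ in atTop, a * ((n : ℝ) + 1) ^ β + k * Real.log ((n : ℝ) + 1) + c <
      n * Real.log 2 := by
  have hx : Tendsto (fun n : ℕ => (n : ℝ) + 1) atTop atTop :=
    tendsto_atTop_add_const_right _ _ tendsto_natCast_atTop_atTop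
  have h1 : (fun x : ℝ => a * x ^ β + k * Real.log x + c) =o[atTop] (fun x : ℝ => x) := by
    refine Asymptotics.IsLittleO.add (Asymptotics.IsLittleO.add ?_ ?_) ?_
    · refine Asymptotics.IsLittleO.const_mul_left ?_ a
      refine Asymptotics.isLittleO_of_tendsto' ?_ ?_
      · filter_upwards [eventually_gt_atTop (0 : ℝ)] with x hx h0
        exact absurd h0 hx.ne'
      · have h := tendsto_rpow_neg_atTop (show 0 < 1 - β by linarith)
        refine h.congr' ?_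
        filter_upwards [eventually_gt_atTop (0 : ℝ)] with x hx
        rw [eq_div_iff hx.ne', neg_sub]
        conv_lhs => rw [← Real.rpow_one x]
        rw [← Real.rpow_mul hx.le, ← Real.rpow_add hx]
        congr 1
        ring
    · exact Asymptotics.IsLittleO.const_mul_left Real.isLittleO_log_id_atTop k
    · exact Asymptotics.isLittleO_const_id_atTop c
  have h2 : Real.log 2 / 2 > 0 := by
    have := Real.log_pos (show (1 : ℝ) < 2 by norm_num)
    linarith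
  have h3 := hx.eventually (h1.def h2)
  filter_upwards [h3, eventually_ge_atTop 2] with n hn hn2
  have hlog := Real.log_pos (show (1 : ℝ) < 2 by norm_num)
  have h4 : (2 : ℝ) ≤ n := by exact_mod_cast hn2
  rw [Real.norm_eq_abs, Real.norm_eq_abs, abs_of_pos (show (0 : ℝ) < (n : ℝ) + 1 by linarith)]
    at hn
  have h5 := (le_abs_self _).trans hn
  nlinarith

theorem Data.length_feat_le (d : Data) {n m Λ : ℕ} {i : Idx} (h0 : i.1 ∈ d.A n)
    (h1 : i.2.1 ≤ Λ) (h2 : i.2.2.2.1 ≤ Λ) (h3 : i.2.2.2.2.1 ≤ Λ) (hg : d.Good i) :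
    (bits (d.feat n m i)).length ≤ sz d.e + sz d.e' + 4 * m + 10 * (d.C * (n + 1) ^ d.c) +
      10 * Λ + 10 * (d.C1 * (Λ + 1) ^ d.c) + 10 * (d.C2 * (Λ + 1) ^ d.c) + 50 := by
  have hs := d.hA _ _ h0
  have hs1 := d.hA1 _ _ hg.1
  have hs2 := d.hA2 _ _ hg.2
  have hm1 : d.C1 * (i.2.1 + 1) ^ d.c ≤ d.C1 * (Λ + 1) ^ d.c :=
    Nat.mul_le_mul_left _ (Nat.pow_le_pow_left (by omega) _)
  have hm2 : d.C2 * (i.2.2.2.2.1 + 1) ^ d.c ≤ d.C2 * (Λ + 1) ^ d.c :=
    Nat.mul_le_mul_left _ (Nat.pow_le_pow_left (by omega) _)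
  have t1 := sz_listBool_le i.1
  have t2 := sz_listBool_le i.2.2.1
  have t3 := sz_listBool_le i.2.2.2.2.2
  have t4 := sz_nat_le (census i.2.2.2.1)
  have t5 := size_census_le i.2.2.2.1
  rw [bits_length]
  unfold Data.feat
  simp only [sz_pair, sz_replicate_unit]
  omega

/-- The number of advice strings for all lengths up to `Λ n = O(n ^ k)`. -/
theorem LittleRoot.bound {k : ℕ} (hk : 1 ≤ k) {q : ℕ → ℕ} (hq : LittleRoot k q) {Λ : ℕ → ℕ}
    (hΛ : PB k Λ) (K : ℕ) : ∀ᶠ n : ℕ in atTop, ∀ l ≤ Λ n, K * q l ≤ n := by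
  obtain ⟨D, hD⟩ := hΛ
  obtain ⟨l0, hl0⟩ := eventually_atTop.1 (hq (K * (2 * D + 1)))
  have hM : ∃ M, ∀ l < l0, K * q l ≤ M := by
    refine ⟨(Finset.range l0).sup fun l => K * q l, fun l hl => ?_⟩
    exact Finset.le_sup (f := fun l => K * q l) (Finset.mem_range.2 hl)
  obtain ⟨M, hM⟩ := hM
  filter_upwards [eventually_ge_atTop (M + 1)] with n hn l hl
  rcases lt_or_ge l l0 with h | h
  · exact (hM l h).trans (by omega)
  · have h1 := hl0 l h
    have h2 : (K * (2 * D + 1) * q l) ^ k ≤ ((2 * D + 1) * n) ^ k := by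
      refine h1.trans (hl.trans ((hD n).trans ?_))
      rw [mul_pow]
      rcases Nat.eq_zero_or_pos D with rfl | hD0
      · simp
      have h3 : (n + 1) ^ k ≤ (2 * n) ^ k := Nat.pow_le_pow_left (by omega) k
      have h4 : D * (n + 1) ^ k ≤ D * (2 * n) ^ k := Nat.mul_le_mul_left _ h3
      refine h4.trans ?_
      rw [mul_pow, ← mul_assoc]
      refine Nat.mul_le_mul_right _ ?_
      have h5 : D * 2 ^ k ≤ (D * 2) ^ k := by
        rw [mul_pow]
        exact Nat.mul_le_mul_right _ (Nat.le_self_pow (by omega) D)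
      exact h5.trans (Nat.pow_le_pow_left (by omega) k)
    have h3 : K * (2 * D + 1) * q l ≤ (2 * D + 1) * n :=
      (Nat.pow_le_pow_iff_left (by omega)).1 h2
    have h4 : (2 * D + 1) * (K * q l) ≤ (2 * D + 1) * n := by
      calc (2 * D + 1) * (K * q l) = K * (2 * D + 1) * q l := by ring
        _ ≤ _ := h3
    exact Nat.le_of_mul_le_mul_left h4 (by omega)

theorem asymp {k E : ℕ} {Λ P : ℕ → ℕ} (hΛ : PB k Λ) (hP : PB E P) :
    ∀ᶠ n : ℕ in atTop, 2 * ((2 ^ (n / 6 + 1)) ^ 3 * (Λ n + 1) ^ 5 * (P n + 2)) + 1 < 2 ^ n := by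
  obtain ⟨D, hD⟩ := PB.const_mul 3 ((hΛ.succ_pow 5).mul (hP.add (PB.const E 2)))
  have hlog := Real.log_pos (show (1 : ℝ) < 2 by norm_num)
  filter_upwards [eventually_lt (β := 0) (by norm_num) 0 (2 * ((k * 5 + E : ℕ) : ℝ))
    (6 * Real.log 2 + 2 * Real.log ((D : ℝ) + 1))] with n hn
  have eD := hD n
  set W := (Λ n + 1) ^ 5 * (P n + 2) with hW
  have hW1 : 1 ≤ W := Nat.mul_pos (by positivity) (by omega)
  have key : 2 * ((2 ^ (n / 6 + 1)) ^ 3 * (Λ n + 1) ^ 5 * (P n + 2)) + 1 ≤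
      2 ^ (n / 2 + 3) * ((D + 1) * (n + 1) ^ (k * 5 + E)) := by
    have e3 : (2 ^ (n / 6 + 1)) ^ 3 * (Λ n + 1) ^ 5 * (P n + 2) = 2 ^ ((n / 6 + 1) * 3) * W := by
      rw [hW, ← pow_mul]
      ring
    rw [e3]
    have e4 : 2 ^ ((n / 6 + 1) * 3) ≤ 2 ^ (n / 2 + 3) :=
      Nat.pow_le_pow_right (by norm_num) (by omega)
    have e5 : 1 ≤ 2 ^ ((n / 6 + 1) * 3) * W := Nat.mul_pos (by positivity) (by omega)
    have e6 : 2 ^ ((n / 6 + 1) * 3) * (3 * W) ≤
        2 ^ (n / 2 + 3) * ((D + 1) * (n + 1) ^ (k * 5 + E)) :=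
      Nat.mul_le_mul e4 (eD.trans (Nat.mul_le_mul_right _ (by omega)))
    have e7 : 2 ^ ((n / 6 + 1) * 3) * (3 * W) = 3 * (2 ^ ((n / 6 + 1) * 3) * W) := by ring
    omega
  refine lt_of_le_of_lt key ?_
  have hgoal : ((2 ^ (n / 2 + 3) * ((D + 1) * (n + 1) ^ (k * 5 + E)) : ℕ) : ℝ) <
      ((2 ^ n : ℕ) : ℝ) := by
    push_cast
    rw [← Real.log_lt_log_iff (by positivity) (by positivity),
      Real.log_mul (by positivity) (by positivity), Real.log_mul (by positivity) (by positivity),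
      Real.log_pow, Real.log_pow, Real.log_pow]
    push_cast at hn ⊢
    have e7 : ((n / 2 : ℕ) : ℝ) ≤ (n : ℝ) / 2 := Nat.cast_div_le
    push_cast at e7
    nlinarith
  exact_mod_cast hgoal

theorem card_le_of_log {A : Finset (List Bool)} {n : ℕ} (h : 6 * Nat.log 2 A.card ≤ n) :
    A.card ≤ 2 ^ (n / 6 + 1) := by
  have h1 := Nat.lt_pow_succ_log_self (b := 2) (by norm_num) A.card
  exact h1.le.trans (Nat.pow_le_pow_right (by norm_num) (by omega))

/-- **`NEXP` is not contained in the nonuniform class with many advice strings.** -/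
theorem exists_not_inUnion {b c : ℕ} (hb : 1 ≤ b) (hc : 1 ≤ c) :
    ∃ L : Set (List Bool), InNEXP L ∧ ¬ InUnion b c L := by
  classical
  by_contra hcon
  have hcon : ∀ L : Set (List Bool), InNEXP L → InUnion b c L := fun L hL => by
    by_contra h2
    exact hcon ⟨L, hL, h2⟩
  obtain ⟨C1, A1, B1, B1', _, hB1, _, hB1', hA1, hq1, hK⟩ := hcon KSet inNEXP_KSet
  obtain ⟨C2, A2, B2, B2', _, hB2, _, hB2', hA2, hq2, hN⟩ := hcon NSet inNEXP_NSet
  obtain ⟨K, hDK⟩ := exists_two hB1 hB1'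
  obtain ⟨N, hDN⟩ := exists_two hB2 hB2'
  set E := c * b * c + 1 with hE
  let P : Polynomial ℕ := (Polynomial.X + 1) ^ E
  have hPe : ∀ n : ℕ, P.eval n = (n + 1) ^ E := fun n => by simp [P]
  let R : Polynomial ℕ := Polynomial.X + P + K.p.comp P + K.p'.comp P + N.p.comp P + N.p'.comp P
  have hRe : ∀ n : ℕ, R.eval n = n + P.eval n + K.p.eval (P.eval n) + K.p'.eval (P.eval n) +
      N.p.eval (P.eval n) + N.p'.eval (P.eval n) := fun n => by
    simp only [R, Polynomial.eval_add, Polynomial.eval_X, Polynomial.eval_comp]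
  obtain ⟨C, A, B, B', hBn, _, hBn', _, hA, hq, hL⟩ := hcon (Diag K N P R) (inNEXP_Diag K N P R)
  obtain ⟨e, Ke, he⟩ := exists_ins hb hBn
  obtain ⟨e', Ke', he'⟩ := exists_ins hb hBn'
  let d : Data := ⟨c, C, A, C1, A1, C2, A2, e, e', hA, hA1, hA2⟩
  have hbc : 1 ≤ c * b := Nat.mul_pos hc hb
  -- the sizes
  let U : ℕ → ℕ := fun n => C * (n + 1) ^ c
  let Z : ℕ → ℕ := fun n => 4 * (n + 2 * U n) + 5
  let m : ℕ → ℕ := fun n => (Ke + Ke') * (Z n + 1) ^ b
  let Λ : ℕ → ℕ := fun n => 8 * (sz e + sz e' + 4 * Z n + 2 * m n + 4) + 7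
  let U1 : ℕ → ℕ := fun n => C1 * (Λ n + 1) ^ c
  let U2 : ℕ → ℕ := fun n => C2 * (Λ n + 1) ^ c
  let G : ℕ → ℕ := fun n => 4 * (Λ n + 2 * (U1 n + U2 n)) + 5
  let F : ℕ → ℕ := fun n => sz e + sz e' + 4 * m n + 10 * U n + 10 * Λ n + 10 * U1 n +
    10 * U2 n + 50
  have pU : PB c U := PB.const_mul C (PB.succ_pow_self c)
  have pZ : PB c Z := (PB.const_mul 4 ((PB.id hc).add (PB.const_mul 2 pU))).add (PB.const c 5)
  have pm : PB (c * b) m := PB.const_mul (Ke + Ke') (pZ.succ_pow b)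
  have pΛ : PB (c * b) Λ := by
    refine (PB.const_mul 8 ((((PB.const _ (sz e + sz e')).add (PB.const_mul 4 ?_)).add
      (PB.const_mul 2 pm)).add (PB.const _ 4))).add (PB.const _ 7)
    exact pZ.mono (Nat.le_mul_of_pos_right _ hb)
  have pU1 : PB (c * b * c) U1 := PB.const_mul C1 (pΛ.succ_pow c)
  have pU2 : PB (c * b * c) U2 := PB.const_mul C2 (pΛ.succ_pow c)
  have hcbc : c * b ≤ c * b * c := Nat.le_mul_of_pos_right _ hc
  have hcc : c ≤ c * b * c := (Nat.le_mul_of_pos_right _ hb).trans hcbc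
  have pG : PB (c * b * c) G := (PB.const_mul 4 ((pΛ.mono hcbc).add
    (PB.const_mul 2 (pU1.add pU2)))).add (PB.const _ 5)
  have pF : PB (c * b * c) F := by
    refine ((((((PB.const _ (sz e + sz e')).add (PB.const_mul 4 (pm.mono hcbc))).add
      (PB.const_mul 10 (pU.mono hcc))).add (PB.const_mul 10 (pΛ.mono hcbc))).add
      (PB.const_mul 10 pU1)).add (PB.const_mul 10 pU2)).add (PB.const _ 50)
  rw [mul_comm b c] at hq hq1 hq2
  have hasymp := asymp pΛ (P := fun n => P.eval n) (E := E) ⟨1, fun n => by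
      show P.eval n ≤ 1 * (n + 1) ^ E
      rw [hPe, one_mul]⟩
  have hcA := hq.bound hbc ((PB.id le_rfl).mono hbc) 6
  have hcA1 := hq1.bound hbc pΛ 6
  have hcA2 := hq2.bound hbc pΛ 6
  obtain ⟨n, hn1, ⟨hn2, hn3⟩, hA', hA1', hA2'⟩ := (hasymp.and ((pG.eventually.and
    pF.eventually).and (hcA.and (hcA1.and hcA2)))).exists
  rw [← hE, ← hPe] at hn2 hn3
  -- the numerical conditions
  have hbounds : d.Bounds b Ke Ke' n (Z n) (m n) (Λ n) (G n) :=
    { Z_le := le_rfl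
      m_le := Nat.mul_le_mul_right _ (Nat.le_add_right _ _)
      m_le' := Nat.mul_le_mul_right _ (Nat.le_add_left _ _)
      Λ_le := le_rfl
      G_le := le_rfl }
  set pad : List Unit := List.replicate (2 ^ R.eval n) () with hpad
  have hpl : pad.length = 2 ^ R.eval n := by rw [hpad, List.length_replicate]
  have hR := hRe n
  have hKG : K.Big (G n) pad := by
    refine ⟨?_, ?_, ?_⟩ <;> rw [hpl] <;> refine Nat.pow_le_pow_right (by norm_num) ?_
    · omega
    · have := eval_mono'' K.p hn2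
      omega
    · have := eval_mono'' K.p' hn2
      omega
  have hNG : N.Big (G n) pad := by
    refine ⟨?_, ?_, ?_⟩ <;> rw [hpl] <;> refine Nat.pow_le_pow_right (by norm_num) ?_
    · omega
    · have := eval_mono'' N.p hn2
      omega
    · have := eval_mono'' N.p' hn2
      omega
  have hrep := fun (x : List Bool) (hx : x.length = n) =>
    Data.rep d (b := b) (L := Diag K N P R) hL hK hN hDK hDN he he' hbounds hKG hNG x hx
  have hfeat : ∀ t ∈ d.feats n (m n) (Λ n), t.length ≤ P.eval n := by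
    intro t ht
    unfold Data.feats at ht
    rw [Finset.mem_image] at ht
    obtain ⟨i, hi, rfl⟩ := ht
    rw [Finset.mem_filter] at hi
    obtain ⟨hi0, hg⟩ := hi
    simp only [Finset.mem_product, Finset.mem_range] at hi0
    exact (d.length_feat_le hi0.1 (Nat.le_of_lt_succ hi0.2.1)
      (Nat.le_of_lt_succ hi0.2.2.2.1) (Nat.le_of_lt_succ hi0.2.2.2.2.1) hg).trans hn3
  have hD := Diag_bound K N P R n (by omega) (by omega) (d.feats n (m n) (Λ n)) hfeat hrep
  have hcard := d.card_feats_le (n := n) (m := m n) (Λ := Λ n) (M := 2 ^ (n / 6 + 1))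
    (card_le_of_log (hA' n le_rfl)) (fun l hl => card_le_of_log (hA1' l hl))
    (fun l hl => card_le_of_log (hA2' l hl))
  have hfin : 2 * ((d.feats n (m n) (Λ n)).card * (P.eval n + 2)) + 1 ≤
      2 * ((2 ^ (n / 6 + 1)) ^ 3 * (Λ n + 1) ^ 5 * (P.eval n + 2)) + 1 := by
    have := Nat.mul_le_mul_right (P.eval n + 2) hcard
    exact Nat.add_le_add_right (Nat.mul_le_mul_left 2 this) 1
  exact absurd (hD.trans hfin) (not_le_of_gt hn1)

end Pool.Agent.T9h36.NX
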