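import Pool.Agent.T9h36.NX.Rep

set_option autoImplicit false

/-!
# The representation of a language by features
-/

namespace Pool.Agent.T9h36.NX

open Pool.Agent.NPC Pool.Agent.H660R2.NX Turing

/-- The representation of `L` with constant `C`, advice sets `A` and sets `B`, `B'`. -/
def IsUn (c C : ℕ) (A : ℕ → Finset (List Bool)) (B B' L : Set (List Bool)) : Prop :=
  ∀ x : List Bool, x ∈ L ↔ ∃ u : List Bool, u.length ≤ C * (x.length + 1) ^ c ∧
    ∃ s ∈ A x.length, bits (x, u, s) ∈ B ∧ bits (x, u, s) ∉ B'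

/-- The index of a feature: the advice strings and the lengths. -/
abbrev Idx : Type := List Bool × ℕ × List Bool × ℕ × ℕ × List Bool

/-- The fixed data: constants and advice sets for the language, the universal set, and `NSet`. -/
structure Data where
  c : ℕ
  C : ℕ
  A : ℕ → Finset (List Bool)
  C1 : ℕ
  A1 : ℕ → Finset (List Bool)
  C2 : ℕ
  A2 : ℕ → Finset (List Bool)
  e : Code
  e' : Code
  hA : ∀ n, ∀ s ∈ A n, s.length ≤ C * (n + 1) ^ c
  hA1 : ∀ n, ∀ s ∈ A1 n, s.length ≤ C1 * (n + 1) ^ c
  hA2 : ∀ n, ∀ s ∈ A2 n, s.length ≤ C2 * (n + 1) ^ c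

/-- The feature with a given index. -/
noncomputable def Data.feat (d : Data) (n m : ℕ) (i : Idx) : Feat :=
  ((d.e, List.replicate m ()), (d.e', List.replicate m ()),
    (List.replicate (d.C * (n + 1) ^ d.c) (), i.1),
    (List.replicate i.2.1 (), List.replicate (d.C1 * (i.2.1 + 1) ^ d.c) (), i.2.2.1),
    (List.replicate i.2.2.2.1 (), census i.2.2.2.1),
    (List.replicate i.2.2.2.2.1 (), List.replicate (d.C2 * (i.2.2.2.2.1 + 1) ^ d.c) (),
      i.2.2.2.2.2))

/-- The advice strings of a feature belong to the right sets. -/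
def Data.Good (d : Data) (i : Idx) : Prop :=
  i.2.2.1 ∈ d.A1 i.2.1 ∧ i.2.2.2.2.2 ∈ d.A2 i.2.2.2.2.1

open Classical in
/-- The codes of the features of the inputs of length `n`. -/
noncomputable def Data.feats (d : Data) (n m Λ : ℕ) : Finset (List Bool) :=
  ((d.A n ×ˢ Finset.range (Λ + 1) ×ˢ (Finset.range (Λ + 1)).biUnion d.A1 ×ˢ
    Finset.range (Λ + 1) ×ˢ Finset.range (Λ + 1) ×ˢ
      (Finset.range (Λ + 1)).biUnion d.A2).filter d.Good).image (fun i => bits (d.feat n m i))

theorem Data.card_feats_le (d : Data) {n m Λ M : ℕ} (h : (d.A n).card ≤ M)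
    (h1 : ∀ l ≤ Λ, (d.A1 l).card ≤ M) (h2 : ∀ l ≤ Λ, (d.A2 l).card ≤ M) :
    (d.feats n m Λ).card ≤ M ^ 3 * (Λ + 1) ^ 5 := by
  classical
  unfold Data.feats
  refine Finset.card_image_le.trans ((Finset.card_filter_le _ _).trans ?_)
  simp only [Finset.card_product, Finset.card_range]
  have e1 : ((Finset.range (Λ + 1)).biUnion d.A1).card ≤ (Λ + 1) * M := by
    have := Finset.card_biUnion_le_card_mul (Finset.range (Λ + 1)) d.A1 M (fun l hl =>
      h1 l (Nat.le_of_lt_succ (Finset.mem_range.1 hl)))
    simpa using this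
  have e2 : ((Finset.range (Λ + 1)).biUnion d.A2).card ≤ (Λ + 1) * M := by
    have := Finset.card_biUnion_le_card_mul (Finset.range (Λ + 1)) d.A2 M (fun l hl =>
      h2 l (Nat.le_of_lt_succ (Finset.mem_range.1 hl)))
    simpa using this
  calc (d.A n).card * ((Λ + 1) * (((Finset.range (Λ + 1)).biUnion d.A1).card * ((Λ + 1) *
        ((Λ + 1) * ((Finset.range (Λ + 1)).biUnion d.A2).card))))
      ≤ M * ((Λ + 1) * (((Λ + 1) * M) * ((Λ + 1) * ((Λ + 1) * ((Λ + 1) * M))))) := by gcongr
    _ = M ^ 3 * (Λ + 1) ^ 5 := by ring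

/-- The numerical conditions. -/
structure Data.Bounds (d : Data) (b Ke Ke' n Z m Λ G : ℕ) : Prop where
  Z_le : 4 * (n + 2 * (d.C * (n + 1) ^ d.c)) + 5 ≤ Z
  m_le : Ke * (Z + 1) ^ b ≤ m
  m_le' : Ke' * (Z + 1) ^ b ≤ m
  Λ_le : 8 * (sz d.e + sz d.e' + 4 * Z + 2 * m + 4) + 7 ≤ Λ
  G_le : 4 * (Λ + 2 * (d.C1 * (Λ + 1) ^ d.c + d.C2 * (Λ + 1) ^ d.c)) + 5 ≤ G

/-- **The representation.** -/
theorem Data.rep (d : Data) {b : ℕ} {L B B' B1 B1' B2 B2' : Set (List Bool)}
    (hL : IsUn d.c d.C d.A B B' L)
    (hK : IsUn d.c d.C1 d.A1 B1 B1' KSet)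
    (hN : IsUn d.c d.C2 d.A2 B2 B2' NSet)
    {K N : Two} (hDK : K.Dec B1 B1') (hDN : N.Dec B2 B2')
    {Ke Ke' : ℕ}
    (he : ∀ (z : List Bool) (m : ℕ), Ke * (z.length + 1) ^ b ≤ m → (z ∈ B ↔ ins d.e z m ∈ KSet))
    (he' : ∀ (z : List Bool) (m : ℕ), Ke' * (z.length + 1) ^ b ≤ m →
      (z ∈ B' ↔ ins d.e' z m ∈ KSet))
    {n Z m Λ G : ℕ} (hb : d.Bounds b Ke Ke' n Z m Λ G) {pad : List Unit}
    (hKG : K.Big G pad) (hNG : N.Big G pad) (x : List Bool) (hx : x.length = n) :
    x ∈ L ↔ ∃ t ∈ d.feats n m Λ, presentB K N pad x t = true := by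
  classical
  subst hx
  set U := d.C * (x.length + 1) ^ d.c with hU
  -- bounds
  have hz : ∀ u s : List Bool, u.length ≤ U → s.length ≤ U → (bits (x, u, s)).length ≤ Z := by
    intro u s h1 h2
    have h4 := length_triple_le x u s
    have h5 := hb.Z_le
    rw [← hU] at h5
    omega
  have hmz : ∀ z : List Bool, z.length ≤ Z → Ke * (z.length + 1) ^ b ≤ m := by
    intro z h
    refine le_trans (Nat.mul_le_mul_left _ ?_) hb.m_le
    exact Nat.pow_le_pow_left (by omega) _
  have hmz' : ∀ z : List Bool, z.length ≤ Z → Ke' * (z.length + 1) ^ b ≤ m := by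
    intro z h
    refine le_trans (Nat.mul_le_mul_left _ ?_) hb.m_le'
    exact Nat.pow_le_pow_left (by omega) _
  have hy : ∀ (z : List Bool), z.length ≤ Z →
      8 * (inst (d.e, List.replicate m ()) z).length + 7 ≤ Λ := by
    intro z h
    have h1 := length_inst_le d.e m z
    have h2 := hb.Λ_le
    omega
  have hy' : ∀ (z : List Bool), z.length ≤ Z →
      8 * (inst (d.e', List.replicate m ()) z).length + 7 ≤ Λ := by
    intro z h
    have h1 := length_inst_le d.e' m z
    have h2 := hb.Λ_le
    omega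
  have hmono1 : ∀ l, l ≤ Λ → d.C1 * (l + 1) ^ d.c ≤ d.C1 * (Λ + 1) ^ d.c := fun l hl =>
    Nat.mul_le_mul_left _ (Nat.pow_le_pow_left (by omega) _)
  have hmono2 : ∀ l, l ≤ Λ → d.C2 * (l + 1) ^ d.c ≤ d.C2 * (Λ + 1) ^ d.c := fun l hl =>
    Nat.mul_le_mul_left _ (Nat.pow_le_pow_left (by omega) _)
  have hG1 := hb.G_le
  have hZΛ : Z ≤ Λ := by
    have := hb.Λ_le
    omega
  have hUZ : U ≤ Z := by
    have := hb.Z_le
    rw [← hU] at this
    omega
  -- the inner tests
  have hin1 : ∀ y s : List Bool, y.length ≤ Λ → s ∈ d.A1 y.length →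
      (K.inner y (List.replicate (d.C1 * (y.length + 1) ^ d.c) ()) s pad =
        true ↔ ∃ u : List Bool, u.length ≤ d.C1 * (y.length + 1) ^ d.c ∧
          bits (y, u, s) ∈ B1 ∧ bits (y, u, s) ∉ B1') := by
    intro y s hyl hs
    have h3 := d.hA1 _ s hs
    have h4 := hmono1 _ hyl
    have := Two.inner_iff hDK hKG (y := y)
      (U := List.replicate (d.C1 * (y.length + 1) ^ d.c) ()) (S := s)
      (by rw [List.length_replicate]; omega) (by
        intro u hu
        rw [List.length_replicate] at hu
        have h5 := length_triple_le y u s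
        omega)
    rw [List.length_replicate] at this
    exact this
  have hin2 : ∀ y s : List Bool, y.length ≤ Λ → s ∈ d.A2 y.length →
      (N.inner y (List.replicate (d.C2 * (y.length + 1) ^ d.c) ()) s pad =
        true ↔ ∃ u : List Bool, u.length ≤ d.C2 * (y.length + 1) ^ d.c ∧
          bits (y, u, s) ∈ B2 ∧ bits (y, u, s) ∉ B2') := by
    intro y s hyl hs
    have h3 := d.hA2 _ s hs
    have h4 := hmono2 _ hyl
    have := Two.inner_iff hDN hNG (y := y)
      (U := List.replicate (d.C2 * (y.length + 1) ^ d.c) ()) (S := s)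
      (by rw [List.length_replicate]; omega) (by
        intro u hu
        rw [List.length_replicate] at hu
        have h5 := length_triple_le y u s
        omega)
    rw [List.length_replicate] at this
    exact this
  have hallU : allB (List.replicate U ()).length pad = allStr U := by
    rw [List.length_replicate]
    exact allB_eq (pow_le_of_le (by omega) hKG.1)
  constructor
  · -- completeness
    intro hxL
    obtain ⟨u, hu, s, hs, hB, hB'⟩ := (hL x).1 hxL
    have hzl := hz u s hu (d.hA _ s hs)
    set z := bits (x, u, s) with hzdef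
    -- the positive instance
    have hy1 : inst (d.e, List.replicate m ()) z ∈ KSet := (he z m (hmz z hzl)).1 hB
    set y1 := inst (d.e, List.replicate m ()) z with hy1def
    obtain ⟨u1, hu1, s1, hs1, hB1, hB1'⟩ := (hK y1).1 hy1
    have hy1l : y1.length ≤ Λ := by have h : 8 * y1.length + 7 ≤ Λ := hy z hzl; omega
    -- the negative instance
    have hy2 : inst (d.e', List.replicate m ()) z ∉ KSet := fun h =>
      hB' ((he' z m (hmz' z hzl)).2 h)
    set y2 := inst (d.e', List.replicate m ()) z with hy2def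
    have hy2l : 8 * y2.length + 7 ≤ Λ := hy' z hzl
    have hv := (mem_NSet_iff y2).2 hy2
    set v := bits (y2, census y2.length) with hvdef
    have hvl : v.length ≤ 8 * y2.length + 7 := length_census_le y2
    have hvΛ : v.length ≤ Λ := hvl.trans hy2l
    obtain ⟨u2, hu2, s2, hs2, hB2, hB2'⟩ := (hN v).1 hv
    -- the index
    let i : Idx := (s, y1.length, s1, y2.length, v.length, s2)
    refine ⟨bits (d.feat x.length m i), ?_, ?_⟩
    · unfold Data.feats
      rw [Finset.mem_image]
      refine ⟨i, ?_, rfl⟩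
      rw [Finset.mem_filter]
      constructor
      · simp only [Finset.mem_product, Finset.mem_range, Finset.mem_biUnion]
        refine ⟨hs, ?_, ⟨y1.length, by omega, hs1⟩, ?_, ?_, ⟨v.length, ?_, hs2⟩⟩
        · change y1.length < Λ + 1
          omega
        · change y2.length < Λ + 1
          omega
        · change v.length < Λ + 1
          exact Nat.lt_succ_of_le hvΛ
        · exact Nat.lt_succ_of_le hvΛ
      · exact ⟨hs1, hs2⟩
    · unfold presentB
      rw [unbits_bits, Option.any_some]
      unfold present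
      rw [List.any_eq_true]
      refine ⟨u, ?_, ?_⟩
      · change u ∈ allB (List.replicate U ()).length pad
        rw [hallU, mem_allStr]
        exact hu
      · have e1 : bits (x, u, (d.feat x.length m i).2.2.1.2) = z := rfl
        rw [e1]
        have e2 : inst (d.feat x.length m i).1 z = y1 := rfl
        have e3 : inst (d.feat x.length m i).2.1 z = y2 := rfl
        rw [e2, e3]
        have e4 : (bits (y2, (d.feat x.length m i).2.2.2.2.1.2)) = v := rfl
        rw [e4]
        have e5 : K.inner y1 (d.feat x.length m i).2.2.2.1.2.1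
            (d.feat x.length m i).2.2.2.1.2.2 pad = true := by
          change K.inner y1 (List.replicate (d.C1 * (y1.length + 1) ^ d.c) ()) s1 pad = true
          rw [hin1 y1 s1 hy1l hs1]
          exact ⟨u1, hu1, hB1, hB1'⟩
        have e6 : N.inner v (d.feat x.length m i).2.2.2.2.2.2.1
            (d.feat x.length m i).2.2.2.2.2.2.2 pad = true := by
          change N.inner v (List.replicate (d.C2 * (v.length + 1) ^ d.c) ()) s2 pad = true
          rw [hin2 v s2 hvΛ hs2]
          exact ⟨u2, hu2, hB2, hB2'⟩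
        rw [e5, e6]
        have e7 : (d.feat x.length m i).2.2.2.1.1.length = y1.length := by
          change (List.replicate y1.length ()).length = _
          rw [List.length_replicate]
        have e8 : (d.feat x.length m i).2.2.2.2.1.1.length = y2.length := by
          change (List.replicate y2.length ()).length = _
          rw [List.length_replicate]
        have e9 : (d.feat x.length m i).2.2.2.2.2.1.length = v.length := by
          change (List.replicate v.length ()).length = _
          rw [List.length_replicate]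
        rw [e7, e8, e9]
        simp
  · -- soundness
    rintro ⟨t, ht, hp⟩
    unfold Data.feats at ht
    rw [Finset.mem_image] at ht
    obtain ⟨i, hi, rfl⟩ := ht
    rw [Finset.mem_filter] at hi
    obtain ⟨hi0, hs1, hs2⟩ := hi
    have hs : i.1 ∈ d.A x.length := (Finset.mem_product.1 hi0).1
    unfold presentB at hp
    rw [unbits_bits, Option.any_some] at hp
    unfold present at hp
    rw [List.any_eq_true] at hp
    obtain ⟨u, hu, hp⟩ := hp
    change u ∈ allB (List.replicate U ()).length pad at hu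
    rw [hallU, mem_allStr] at hu
    simp only [Bool.and_eq_true, decide_eq_true_eq] at hp
    obtain ⟨⟨hl1, hK1⟩, ⟨hl3, hl2⟩, hN1⟩ := hp
    set s := i.1 with hsdef
    have e1 : bits (x, u, (d.feat x.length m i).2.2.1.2) = bits (x, u, s) := rfl
    rw [e1] at hl1 hK1 hl3 hl2 hN1
    have hzl := hz u s hu (d.hA _ s hs)
    set z := bits (x, u, s) with hzdef
    set y1 := inst (d.e, List.replicate m ()) z with hy1def
    set y2 := inst (d.e', List.replicate m ()) z with hy2def
    have e2 : inst (d.feat x.length m i).1 z = y1 := rfl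
    have e3 : inst (d.feat x.length m i).2.1 z = y2 := rfl
    rw [e2] at hl1 hK1
    rw [e3] at hl3 hl2 hN1
    have hy1l : y1.length ≤ Λ := by have h : 8 * y1.length + 7 ≤ Λ := hy z hzl; omega
    have hy2l : 8 * y2.length + 7 ≤ Λ := hy' z hzl
    have e7 : (d.feat x.length m i).2.2.2.1.1.length = i.2.1 := by
      change (List.replicate i.2.1 ()).length = _
      rw [List.length_replicate]
    have e8 : (d.feat x.length m i).2.2.2.2.1.1.length = i.2.2.2.1 := by
      change (List.replicate i.2.2.2.1 ()).length = _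
      rw [List.length_replicate]
    have e9 : (d.feat x.length m i).2.2.2.2.2.1.length = i.2.2.2.2.1 := by
      change (List.replicate i.2.2.2.2.1 ()).length = _
      rw [List.length_replicate]
    rw [e7] at hl1
    rw [e8] at hl3
    have e4 : (d.feat x.length m i).2.2.2.2.1.2 = census y2.length := by
      change census i.2.2.2.1 = _
      rw [hl3]
    rw [e9, e4] at hl2
    rw [e4] at hN1
    set v := bits (y2, census y2.length) with hvdef
    have hvl : v.length ≤ 8 * y2.length + 7 := length_census_le y2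
    have hvΛ : v.length ≤ Λ := hvl.trans hy2l
    have hs1' : i.2.2.1 ∈ d.A1 y1.length := by rw [hl1]; exact hs1
    have hs2' : i.2.2.2.2.2 ∈ d.A2 v.length := by rw [hl2]; exact hs2
    -- the positive instance
    have hB : z ∈ B := by
      rw [he z m (hmz z hzl)]
      change y1 ∈ KSet
      rw [hK y1]
      have hK2 : K.inner y1 (List.replicate (d.C1 * (y1.length + 1) ^ d.c) ()) i.2.2.1 pad =
          true := by
        rw [hl1]; exact hK1
      rw [hin1 y1 i.2.2.1 hy1l hs1'] at hK2
      obtain ⟨u1, hu1, h1, h2⟩ := hK2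
      exact ⟨u1, hu1, _, hs1', h1, h2⟩
    have hB' : z ∉ B' := by
      rw [he' z m (hmz' z hzl)]
      change y2 ∉ KSet
      rw [← mem_NSet_iff y2]
      change v ∈ NSet
      rw [hN v]
      have hN2 : N.inner v (List.replicate (d.C2 * (v.length + 1) ^ d.c) ()) i.2.2.2.2.2 pad =
          true := by
        rw [hl2]; exact hN1
      rw [hin2 v i.2.2.2.2.2 hvΛ hs2'] at hN2
      obtain ⟨u2, hu2, h1, h2⟩ := hN2
      exact ⟨u2, hu2, _, hs2', h1, h2⟩
    exact (hL x).2 ⟨u, hu, s, hs, hB, hB'⟩

end Pool.Agent.T9h36.NX
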