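import Pool.Agent.T9h36.NX.DiagPoly

set_option autoImplicit false

/-!
# Every language of the nonuniform class is, length by length, a union of few features
-/

namespace Pool.Agent.T9h36.NX

open Pool.Agent.NPC Pool.Agent.H660R2.NX Turing

theorem eval_mono'' (p : Polynomial ℕ) {a b : ℕ} (h : a ≤ b) : p.eval a ≤ p.eval b := by
  rw [Polynomial.eval_eq_sum_range, Polynomial.eval_eq_sum_range]
  gcongr

/-- `D` decides the pair `B`, `B'`. -/
def Two.Dec (D : Two) (B B' : Set (List Bool)) : Prop :=
  (∀ x, x ∈ B ↔ D.V (pairBits x (List.replicate (2 ^ D.p.eval x.length) false)) = [true]) ∧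
  (∀ x, x ∈ B' ↔ D.V' (pairBits x (List.replicate (2 ^ D.p'.eval x.length) false)) = [true])

theorem exists_two {B B' : Set (List Bool)} (h : InEXP B) (h' : InEXP B') :
    ∃ D : Two, D.Dec B B' := by
  obtain ⟨V, p, hV, hB⟩ := h
  obtain ⟨V', p', hV', hB'⟩ := h'
  exact ⟨⟨V, p, V', p', hV, hV'⟩, hB, hB'⟩

/-- The padding is long enough for strings of length at most `G`. -/
def Two.Big (D : Two) (G : ℕ) (pad : List Unit) : Prop :=
  2 ^ G ≤ pad.length ∧ 2 ^ D.p.eval G ≤ pad.length ∧ 2 ^ D.p'.eval G ≤ pad.length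

theorem pow_le_of_le {a b m : ℕ} (h : a ≤ b) (hb : 2 ^ b ≤ m) : 2 ^ a ≤ m :=
  (Nat.pow_le_pow_right (by norm_num) h).trans hb

theorem Two.inner_iff {D : Two} {B B' : Set (List Bool)} (hD : D.Dec B B') {G : ℕ}
    {pad : List Unit} (hG : D.Big G pad) {y : List Bool} {U : List Unit} {S : List Bool}
    (hU : U.length ≤ G) (hlen : ∀ u : List Bool, u.length ≤ U.length →
      (bits (y, u, S)).length ≤ G) :
    D.inner y U S pad = true ↔
      ∃ u : List Bool, u.length ≤ U.length ∧ bits (y, u, S) ∈ B ∧ bits (y, u, S) ∉ B' := by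
  unfold Two.inner
  rw [allB_eq (pow_le_of_le hU hG.1), List.any_eq_true]
  constructor
  · rintro ⟨u, hu, h⟩
    rw [mem_allStr] at hu
    rw [Bool.and_eq_true, Bool.not_eq_true'] at h
    have h1 := inE_iff hD.1 (y := bits (y, u, S)) (pad := pad)
      (pow_le_of_le (eval_mono'' _ (hlen u hu)) hG.2.1)
    have h2 := inE_iff hD.2 (y := bits (y, u, S)) (pad := pad)
      (pow_le_of_le (eval_mono'' _ (hlen u hu)) hG.2.2)
    refine ⟨u, hu, h1.1 h.1, fun h3 => ?_⟩
    rw [h2.2 h3] at h
    simp at h
  · rintro ⟨u, hu, h3, h4⟩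
    have h1 := inE_iff hD.1 (y := bits (y, u, S)) (pad := pad)
      (pow_le_of_le (eval_mono'' _ (hlen u hu)) hG.2.1)
    have h2 := inE_iff hD.2 (y := bits (y, u, S)) (pad := pad)
      (pow_le_of_le (eval_mono'' _ (hlen u hu)) hG.2.2)
    refine ⟨u, mem_allStr.2 hu, ?_⟩
    rw [Bool.and_eq_true, Bool.not_eq_true']
    refine ⟨h1.2 h3, ?_⟩
    by_contra h5
    exact h4 (h2.1 (by simpa using h5))

theorem sz_replicate_unit (m : ℕ) : sz (List.replicate m ()) = 2 * m + 1 := by
  induction m with
  | zero => rfl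
  | succ m ih => rw [List.replicate_succ, sz_list_cons, ih, sz_unit]; omega

theorem length_triple_le (y u s : List Bool) :
    (bits (y, u, s)).length ≤ 4 * (y.length + u.length + s.length) + 5 := by
  rw [bits_length, sz_pair, sz_pair]
  have h1 := sz_listBool_le y
  have h2 := sz_listBool_le u
  have h3 := sz_listBool_le s
  omega

theorem length_inst_le (e : Code) (m : ℕ) (z : List Bool) :
    (inst (e, List.replicate m ()) z).length ≤ sz e + 4 * z.length + 2 * m + 4 := by
  change (bits (e, z, List.replicate m ())).length ≤ _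
  have h2 : sz (e, z, List.replicate m ()) = sz e + sz (z, List.replicate m ()) + 1 :=
    sz_pair _ _
  have h3 : sz (z, List.replicate m ()) = sz z + sz (List.replicate m ()) + 1 := sz_pair _ _
  rw [bits_length, h2, h3, sz_replicate_unit]
  have h1 := sz_listBool_le z
  omega

theorem size_census_le (n : ℕ) : (census n).size ≤ n + 1 := by
  rw [Nat.size_le]
  have := census_le n
  rw [pow_succ]
  have h := Nat.one_le_two_pow (n := n)
  omega

theorem length_census_le (y : List Bool) :
    (bits (y, census y.length)).length ≤ 8 * y.length + 7 := by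
  rw [bits_length, sz_pair]
  have h1 := sz_listBool_le y
  have h2 := sz_nat_le (census y.length)
  have h3 := size_census_le y.length
  omega

end Pool.Agent.T9h36.NX
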