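import Pool.Agent.H660R2.NX.UnivSet
import Pool.Agent.T9h36.NX.Defs

set_option autoImplicit false

/-!
# Tools: powers of two, exponential padding, membership in `EXP` and `NEXP`
-/

namespace Pool.Agent.T9h36.NX

open Pool.Agent.NPC Pool.Agent.H660R2.NX Turing

attribute [local irreducible] unpair

theorem uPoly_comp_length {α β : Type} [TEnc α] [TEnc β] {l : α → List β} (hl : Poly l) :
    UPoly (fun a => (l a).length) := UPoly.length hl

/-- Powers of two with unary exponents. -/
theorem poly_two_pow {α : Type} [TEnc α] {k : α → ℕ} (hk : UPoly k) :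
    Poly (fun a => 2 ^ k a) := by
  have h1 : Poly (fun a => (List.replicate (k a) ()).map (fun _ => false)) :=
    NPC.Poly.map (F := fun _ _ => false) hk (by fun_prop)
  have h2 : Poly (fun a => (List.replicate (k a) ()).map (fun _ => false) ++ [true]) :=
    NPC.Poly.append h1 (by fun_prop)
  refine (Poly.valBits h2).congr fun a => ?_
  rw [List.map_replicate, valB_append]
  have : valB (List.replicate (k a) false) = 0 := by
    have := valB_replicate_false (k a) false
    rw [valB_append] at this
    simpa using this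
  rw [this]
  simp

/-- The padding string of length `2 ^ k`, cut at the length of `pad`. -/
def expPad (k : ℕ) (pad : List Unit) : List Bool := List.replicate (min (2 ^ k) pad.length) false

theorem poly_expPad {α : Type} [TEnc α] {k : α → ℕ} {pad : α → List Unit} (hk : UPoly k)
    (hpad : Poly pad) : Poly (fun a => expPad (k a) (pad a)) := by
  have h1 : UPoly (fun a => min (2 ^ k a) (pad a).length) :=
    UPoly.of_le (Poly.min (poly_two_pow hk) (Poly.length hpad)) (UPoly.length hpad)
      (fun a => min_le_right _ _)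
  refine (NPC.Poly.map (F := fun _ _ => false) h1 (by fun_prop)).congr fun a => ?_
  rw [List.map_replicate]
  rfl

theorem expPad_eq {k : ℕ} {pad : List Unit} (h : 2 ^ k ≤ pad.length) :
    expPad k pad = List.replicate (2 ^ k) false := by
  unfold expPad
  rw [min_eq_left h]

/-- The decision procedure of a set in `EXP`, with explicit padding. -/
def inE (V : List Bool → List Bool) (p : Polynomial ℕ) (y : List Bool) (pad : List Unit) : Bool :=
  decide (V (pairBits y (expPad (p.eval y.length) pad)) = [true])

theorem poly_inE {α : Type} [TEnc α] {V : List Bool → List Bool} (hV : PolyTime V)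
    (p : Polynomial ℕ) {y : α → List Bool} {pad : α → List Unit} (hy : Poly y) (hpad : Poly pad) :
    Poly (fun a => inE V p (y a) (pad a)) := by
  unfold inE
  have h1 : Poly (fun a => expPad (p.eval (y a).length) (pad a)) :=
    poly_expPad (UPoly.eval (UPoly.length hy) p) hpad
  have h2 : Poly (fun a => V (pairBits (y a) (expPad (p.eval (y a).length) (pad a)))) :=
    (poly_of_polyTime hV).comp (poly_pairBits hy h1)
  exact NPC.Poly.dec_eq h2 (by fun_prop)

theorem inE_iff {V : List Bool → List Bool} {p : Polynomial ℕ} {L : Set (List Bool)}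
    (hL : ∀ x, x ∈ L ↔ V (pairBits x (List.replicate (2 ^ p.eval x.length) false)) = [true])
    {y : List Bool} {pad : List Unit} (h : 2 ^ p.eval y.length ≤ pad.length) :
    inE V p y pad = true ↔ y ∈ L := by
  unfold inE
  rw [expPad_eq h, hL y, decide_eq_true_iff]

/-- Sets decided in polynomial time with padding of length `2 ^ R(n)` are in `EXP`. -/
theorem inEXP_of {D : List Bool → List Unit → Bool}
    (hD : Poly (fun p : List Bool × List Unit => D p.1 p.2)) (R : Polynomial ℕ)
    {L : Set (List Bool)}
    (hL : ∀ x, x ∈ L ↔ D x (List.replicate (2 ^ R.eval x.length) ()) = true) : InEXP L := by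
  refine ⟨fun y => [D (unpair y).1 ((unpair y).2.map fun _ => ())], R, ?_, fun x => ?_⟩
  · refine polyTime_of_poly (g := fun y => D (unpair y).1 ((unpair y).2.map fun _ => ())) ?_
    exact hD.comp (f := fun y : List Bool => ((unpair y).1, (unpair y).2.map fun _ => ()))
      (by fun_prop)
  · simp only [unpair_pairBits, List.map_replicate]
    rw [hL x]
    simp

/-- The same for `NEXP`. -/
theorem inNEXP_of {D : List Bool → List Unit → Bool}
    (hD : Poly (fun p : List Bool × List Unit => D p.1 p.2)) (R : Polynomial ℕ)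
    {L : Set (List Bool)}
    (hL : ∀ x, x ∈ L ↔ D x (List.replicate (2 ^ R.eval x.length) ()) = true) : InNEXP L := by
  refine ⟨fun y => [decide ((unpair y).2.length = 2 ^ R.eval (unpair y).1.length) &&
    D (unpair y).1 ((unpair y).2.map fun _ => ())], R, ?_, fun x => ?_⟩
  · refine polyTime_of_poly (g := fun y => decide ((unpair y).2.length =
      2 ^ R.eval (unpair y).1.length) && D (unpair y).1 ((unpair y).2.map fun _ => ())) ?_
    have h1 : Poly (fun y : List Bool => D (unpair y).1 ((unpair y).2.map fun _ => ())) :=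
      hD.comp (f := fun y : List Bool => ((unpair y).1, (unpair y).2.map fun _ => ()))
        (by fun_prop)
    have h2 : Poly (fun y : List Bool => 2 ^ R.eval (unpair y).1.length) :=
      poly_two_pow (UPoly.eval (UPoly.length (by fun_prop)) R)
    have h3 : Poly (fun y : List Bool => decide ((unpair y).2.length =
      2 ^ R.eval (unpair y).1.length)) := Poly.dec_eq (by fun_prop) h2
    exact Poly.and h3 h1
  · rw [hL x]
    constructor
    · intro h
      refine ⟨List.replicate (2 ^ R.eval x.length) false, by simp, ?_⟩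
      simp only [unpair_pairBits, List.map_replicate, List.length_replicate]
      simp [h]
    · rintro ⟨w, _, hw⟩
      simp only [unpair_pairBits, List.cons.injEq, and_true, Bool.and_eq_true,
        decide_eq_true_eq] at hw
      obtain ⟨h1, h2⟩ := hw
      have h3 : w.map (fun _ => ()) = List.replicate (2 ^ R.eval x.length) () := by
        rw [List.eq_replicate_iff]
        simp [h1]
      rwa [h3] at h2

/-- A verifier that checks the length of the certificate. -/
theorem exists_checked {b : ℕ} {L : Set (List Bool)} (h : InNTE b L) :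
    ∃ (V : List Bool → List Bool) (k : ℕ), PolyTime V ∧
      (∀ x, x ∈ L ↔ ∃ w : List Bool, V (pairBits x w) = [true]) ∧
      ∀ x w, V (pairBits x w) = [true] → w.length ≤ 2 ^ (k * (x.length + 1) ^ b) := by
  obtain ⟨V, k, hV, hL⟩ := h
  have e : ∀ n : ℕ, (Polynomial.C k * (Polynomial.X + 1) ^ b).eval n = k * (n + 1) ^ b := by
    intro n; simp
  refine ⟨fun y => [decide ((unpair y).2.length ≤
      2 ^ (Polynomial.C k * (Polynomial.X + 1) ^ b).eval (unpair y).1.length) &&
      decide (V (pairBits (unpair y).1 (unpair y).2) = [true])], k, ?_, fun x => ?_,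
      fun x w => ?_⟩
  · refine polyTime_of_poly (g := fun y => decide ((unpair y).2.length ≤
      2 ^ (Polynomial.C k * (Polynomial.X + 1) ^ b).eval (unpair y).1.length) &&
      decide (V (pairBits (unpair y).1 (unpair y).2) = [true])) ?_
    have h2 : Poly (fun y : List Bool =>
        2 ^ (Polynomial.C k * (Polynomial.X + 1) ^ b).eval (unpair y).1.length) :=
      poly_two_pow (UPoly.eval (UPoly.length (by fun_prop)) _)
    have h3 : Poly (fun y : List Bool => decide ((unpair y).2.length ≤
      2 ^ (Polynomial.C k * (Polynomial.X + 1) ^ b).eval (unpair y).1.length)) :=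
      Poly.decide_le (by fun_prop) h2
    have h4 : Poly (fun y : List Bool => V (pairBits (unpair y).1 (unpair y).2)) :=
      (poly_of_polyTime hV).comp (by fun_prop)
    exact Poly.and h3 (NPC.Poly.dec_eq h4 (by fun_prop))
  · rw [hL x]
    simp only [unpair_pairBits, e, List.cons.injEq, and_true, Bool.and_eq_true,
      decide_eq_true_eq]
  · simp only [unpair_pairBits, e, List.cons.injEq, and_true, Bool.and_eq_true,
      decide_eq_true_eq]
    exact fun h => h.1

theorem poly_bound (p : Polynomial ℕ) : ∃ c d : ℕ, ∀ n : ℕ, p.eval n ≤ c * (n + 1) ^ d := by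
  induction p using Polynomial.induction_on' with
  | add p q hp hq =>
    obtain ⟨c, d, h⟩ := hp
    obtain ⟨c', d', h'⟩ := hq
    refine ⟨c + c', d + d', fun n => ?_⟩
    rw [Polynomial.eval_add, Nat.add_mul]
    refine Nat.add_le_add ((h n).trans ?_) ((h' n).trans ?_)
    · exact Nat.mul_le_mul_left _ (Nat.pow_le_pow_right (by omega) (by omega))
    · exact Nat.mul_le_mul_left _ (Nat.pow_le_pow_right (by omega) (by omega))
  | monomial k c =>
    refine ⟨c, k, fun n => ?_⟩
    rw [Polynomial.eval_monomial]
    exact Nat.mul_le_mul_left _ (Nat.pow_le_pow_left (by omega) _)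

/-- **Reduction to the universal set**: with enough padding. -/
theorem exists_ins {b : ℕ} (hb : 1 ≤ b) {L : Set (List Bool)} (h : InNTE b L) :
    ∃ (e : Code) (K : ℕ), ∀ (z : List Bool) (m : ℕ), K * (z.length + 1) ^ b ≤ m →
      (z ∈ L ↔ ins e z m ∈ KSet) := by
  obtain ⟨V, k, hV, hL, hw⟩ := exists_checked h
  obtain ⟨e, p, he⟩ := U_complete hV
  have he' : IsCode e V p := he
  obtain ⟨c, d, hcd⟩ := poly_bound p
  refine ⟨e, k + 2 + (c + d * (k + 3)), fun z m hm => ?_⟩
  constructor
  · intro hz
    obtain ⟨w, hwV⟩ := (hL z).1 hz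
    refine ins_complete he' hwV ?_
    have h1 := hw z w hwV
    set B := (z.length + 1) ^ b with hB
    have hB1 : z.length + 1 ≤ B := by
      rw [hB]
      exact Nat.le_self_pow (by omega) _
    refine le_trans ?_ (Nat.pow_le_pow_right (by norm_num) hm)
    have h2 : (pairBits z w).length + 1 ≤ 2 ^ ((k + 3) * B) := by
      rw [length_pairBits]
      have h3 : z.length + 1 < 2 ^ (z.length + 1) := Nat.lt_two_pow_self
      have h4 : 2 ^ (z.length + 1) ≤ 2 ^ B := Nat.pow_le_pow_right (by norm_num) hB1
      have h5 : (k + 3) * B = k * B + B + B + B := by ring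
      have h6 : 1 ≤ B := by omega
      have h7 : 2 ≤ 2 ^ B := by
        calc 2 = 2 ^ 1 := by norm_num
          _ ≤ 2 ^ B := Nat.pow_le_pow_right (by norm_num) h6
      have h8 : 1 ≤ 2 ^ (k * B) := Nat.one_le_two_pow
      rw [h5, pow_add, pow_add, pow_add]
      have h9 : 2 ^ B + 2 ^ (k * B) ≤ 2 ^ (k * B) * 2 ^ B + 1 := by nlinarith
      have h10 : 2 * z.length + 1 + w.length + 1 ≤ 2 * 2 ^ B + 2 ^ (k * B) := by omega
      have h11 : 2 * 2 ^ B + 2 ^ (k * B) ≤ 2 ^ (k * B) * 2 ^ B * 2 ^ B * 2 ^ B := by
        generalize 2 ^ (k * B) = x1 at h8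
        generalize 2 ^ B = y1 at h7
        obtain ⟨y, rfl⟩ := Nat.exists_eq_add_of_le h7
        obtain ⟨x, rfl⟩ := Nat.exists_eq_add_of_le h8
        ring_nf
        nlinarith [Nat.zero_le (x * y), Nat.zero_le (x * y ^ 2), Nat.zero_le (x * y ^ 3),
          Nat.zero_le (y ^ 2), Nat.zero_le (y ^ 3), Nat.zero_le x, Nat.zero_le y]
      omega
    have h13 : p.eval (pairBits z w).length ≤ 2 ^ ((c + d * (k + 3)) * B) := by
      refine (hcd _).trans ?_
      have h14 : c ≤ 2 ^ (c * B) := by
        have : c < 2 ^ c := Nat.lt_two_pow_self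
        have h15 : 2 ^ c ≤ 2 ^ (c * B) := Nat.pow_le_pow_right (by norm_num)
          (Nat.le_mul_of_pos_right _ (by omega))
        omega
      have h16 : ((pairBits z w).length + 1) ^ d ≤ 2 ^ (d * (k + 3) * B) := by
        calc ((pairBits z w).length + 1) ^ d ≤ (2 ^ ((k + 3) * B)) ^ d :=
              Nat.pow_le_pow_left h2 d
          _ = 2 ^ (d * (k + 3) * B) := by rw [← pow_mul]; congr 1; ring
      calc c * ((pairBits z w).length + 1) ^ d ≤ 2 ^ (c * B) * 2 ^ (d * (k + 3) * B) :=
            Nat.mul_le_mul h14 h16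
        _ = 2 ^ ((c + d * (k + 3)) * B) := by rw [← pow_add]; congr 1; ring
    have h17 : 2 * w.length + 1 ≤ 3 * 2 ^ (k * B) := by
      have := Nat.one_le_two_pow (n := k * B)
      omega
    have h18 : (k + 2 + (c + d * (k + 3))) * B = k * B + 2 * B + (c + d * (k + 3)) * B := by ring
    rw [h18, pow_add, pow_add]
    have h19 : 4 ≤ 2 ^ (2 * B) := by
      calc 4 = 2 ^ 2 := by norm_num
        _ ≤ 2 ^ (2 * B) := Nat.pow_le_pow_right (by norm_num) (by omega)
    have h20 := Nat.one_le_two_pow (n := k * B)
    have h21 := Nat.one_le_two_pow (n := (c + d * (k + 3)) * B)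
    set x1 := 2 ^ (k * B)
    set x2 := 2 ^ (2 * B)
    set x3 := 2 ^ ((c + d * (k + 3)) * B)
    have h22 : 3 * x1 + x3 ≤ 4 * (x1 * x3) := by nlinarith
    have h23 : 4 * (x1 * x3) ≤ x2 * (x1 * x3) := Nat.mul_le_mul_right _ h19
    have h24 : x2 * (x1 * x3) = x1 * x2 * x3 := by ring
    omega
  · intro hz
    obtain ⟨w, hwV⟩ := ins_sound he' hz
    exact (hL z).2 ⟨w, hwV⟩

end Pool.Agent.T9h36.NX
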